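import Pool.Agent.Work.MP_a60482_pf.Api
import Pool.Agent.Work.MP_a60482_dg.Api
import Pool.Agent.Work.MP_a60482_kc.Api

/-!
# Families of Weil cohomology theories over one theory of cycles

`ClassMap Z D`: cycle class maps from the theory `Z` of cycles with rational coefficients to the
Weil cohomology theory `D`; `ClassMap.IsCompatible`: the axioms; the algebraic classes of `D`
are the `K`-spans of the classes of cycles.

`ClassMap.rat`: the theory `D` with the classes of cycles with rational coefficients as
algebraic classes.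

`Ample Z`: ample line bundles and their Chern classes in `Z`; `Ample.pol`, `Ample.rat`: the
associated polarizations of `D` and of `D` with rational coefficients.

`WeilCoh.traceOn`: the trace of a self-correspondence on `H^i(X)`.

`WeilCoh.ProjIn D S X`: the projector onto the sum of the `H^i(X)`, `i ∈ S`, is algebraic.
-/

open CategoryTheory MonoidalCategory CartesianMonoidalCategory

universe u v w x b y z

namespace Pool.Std

open Pool.KC (CycleTheory)

namespace WeilCoh

variable {V : Type u} [Category.{v} V] [CartesianMonoidalCategory V] {K : Type x} [Field K]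
variable (D : WeilCoh.{u, v, w, x} V K)

/-- The action of a correspondence, as a linear map. -/
def actHom {X Y : V} (z : D.H (X ⊗ Y)) : D.H X →ₗ[K] D.H Y :=
  D.push X Y ∘ₗ LinearMap.mulRight K z ∘ₗ (D.pull (fst X Y)).toLinearMap

/-- The trace on `H^i(X)` of a self-correspondence of `X`. -/
noncomputable def traceOn {X : V} (i : ℕ) (z : D.H (X ⊗ X)) : K :=
  LinearMap.trace K (D.H X) (D.actHom z ∘ₗ GradedAlgebra.proj (D.R X).deg i)

/-- The class `z` on `X × X` acts as the projector of `H(X)` onto the sum of the `H^i(X)` with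
`i ∈ S`. -/
def IsProj (S : Set ℕ) {X : V} (z : D.H (X ⊗ X)) : Prop :=
  ∀ i : ℕ, ∀ a ∈ D.deg X i, (i ∈ S → D.act z a = a) ∧ (i ∉ S → D.act z a = 0)

end WeilCoh

section

variable {V : Type u} [Category.{v} V] [CartesianMonoidalCategory V]

/-- Additive maps `Z^i(X) → H(X)`, for a theory `Z` of cycles with rational coefficients. -/
structure ClassMap (Z : CycleTheory.{u, v, y} V) {K : Type x} [Field K]
    (D : WeilCoh.{u, v, w, x} V K) where
  cl : ∀ (X : V) (i : ℕ), Z.Z X i →+ D.H X

namespace ClassMap

variable {Z : CycleTheory.{u, v, y} V} {K : Type x} [Field K] {D : WeilCoh.{u, v, w, x} V K}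

/-- The maps `cl X i` are `ℚ`-linear, and the algebraic classes of `D` are the `K`-spans of
their images. -/
structure IsSpan (c : ClassMap Z D) : Prop where
  dim : ∀ X, Z.dim X = D.dim X
  smul : ∀ (X : V) (i : ℕ) (q : ℚ) (a : Z.Z X i), c.cl X i (q • a) = (q : K) • c.cl X i a
  span : ∀ (X : V) (i : ℕ) (a : D.H X),
    a ∈ D.alg X i ↔ a ∈ Submodule.span K (Set.range (c.cl X i))

/-- The maps `cl X i` are compatible with products and diagonals. -/
structure IsMul (c : ClassMap Z D) : Prop where
  mul : ∀ (X : V) (i j : ℕ) (a : Z.Z X i) (b : Z.Z X j),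
    c.cl X (i + j) (Z.mul a b) = c.cl X i a * c.cl X j b
  diag : ∀ X : V, c.cl (X ⊗ X) (Z.dim X) (Z.diag X) = D.diag X

/-- The maps `cl X i` are compatible with pull-backs, and push-forwards along projections. -/
structure IsFunctorial (c : ClassMap Z D) : Prop where
  pull : ∀ (X Y : V) (f : X ⟶ Y) (i : ℕ) (a : Z.Z Y i),
    c.cl X i (Z.pull f a) = D.pb f (c.cl Y i a)
  push : ∀ (X Y : V) (i : ℕ) (a : Z.Z (X ⊗ Y) (Z.dim X + i)),
    c.cl Y i (Z.push X Y i a) = D.pf (c.cl (X ⊗ Y) (Z.dim X + i) a)

/-- The maps `cl X i` are `ℚ`-linear and compatible with products, pull-backs, push-forwards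
along projections and diagonals, and the algebraic classes of `D` are the `K`-spans of their
images. -/
structure IsCompatible (c : ClassMap Z D) : Prop extends c.IsSpan, c.IsMul, c.IsFunctorial

/-- The same cohomology theory; the algebraic classes are the classes of the cycles with
rational coefficients. -/
def rat (c : ClassMap Z D) : WeilCoh.{u, v, w, x} V K :=
  { D with alg := fun X i => (c.cl X i).range }

end ClassMap

/-- the traces on `H^i(X)` of the cycles on `X × X` are rational and independent of `l` -/
def TracesAgree {Z : CycleTheory.{u, v, y} V} {ι : Type z} {K : ι → Type x}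
    [∀ l, Field (K l)] {D : ∀ l, WeilCoh.{u, v, w, x} V (K l)} (c : ∀ l, ClassMap Z (D l))
    (X : V) : Prop :=
  ∀ (a : Z.Z (X ⊗ X) (Z.dim X)) (i : ℕ), ∃ q : ℚ, ∀ l,
    (D l).traceOn i ((c l).cl _ _ a) = (q : K l)

/-- Ample line bundles, with Chern classes in `Z^1(X)`: `Bund X` are the ample line bundles on
`X`, `box M N` is the external tensor product, `P1` the projective line and `O1 = O(1)`. -/
structure Ample (Z : CycleTheory.{u, v, y} V) where
  Bund : V → Type b
  c : ∀ {X : V}, Bund X → Z.Z X 1
  box : ∀ {X Y : V}, Bund X → Bund Y → Bund (X ⊗ Y)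
  P1 : V
  O1 : Bund P1

namespace Ample

variable {Z : CycleTheory.{u, v, y} V} {K : Type x} [Field K] {D : WeilCoh.{u, v, w, x} V K}

/-- the polarization of `D` -/
def pol (A : Ample.{u, v, b, y} Z) (c : ClassMap Z D) : Polarization.{u, v, w, x, b} D where
  Bund := A.Bund
  c := fun {X} M => c.cl X 1 (A.c M)
  box := A.box
  P1 := A.P1
  O1 := A.O1

/-- the polarization of `D` with rational coefficients -/
def rat (A : Ample.{u, v, b, y} Z) (c : ClassMap Z D) :
    Polarization.{u, v, w, x, b} c.rat where
  Bund := A.Bund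
  c := fun {X} M => c.cl X 1 (A.c M)
  box := A.box
  P1 := A.P1
  O1 := A.O1

end Ample

end

end Pool.Std
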