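import Pool.Agent.Work.MP_a60482_ind.Blocks

/-!
Block BAL.
-/

open CategoryTheory MonoidalCategory CartesianMonoidalCategory

universe u v w x b y z

namespace Pool.Std

open Pool.KC (CycleTheory)

variable {V : Type u} [Category.{v} V] [CartesianMonoidalCategory V]

theorem p_BAL (Z : CycleTheory.{u, v, y} V) {ι : Type z} {K : ι → Type x}
    [∀ l, Field (K l)] [∀ l, CharZero (K l)] (D : ∀ l, WeilCoh.{u, v, w, x} V (K l))
    (hBIN : S_BIN.{u, v, w, x, b, y, z} Z D) (hRAT : ∀ l, S_RAT Z (D l))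
    (hRPL : ∀ l, S_RPL.{u, v, w, x, b, y} Z (D l)) : S_BAL.{u, v, w, x, b, y, z} Z D := by
  intro c hW hc A hA X hX M o ho l
  have h1 : ∀ i : ℕ, (A.pol (c o)).LefschetzIn i M := by
    intro i
    rw [Polarization.lefschetzIn_iff (hW o) (hA o)]
    exact Pl.lefI_of_lefB (G := Polarization.toPl (hW o) (hA o)) M
      ((Polarization.conjB_iff (hW o) (hA o) M).mp ho) i
  have h2 : (c l).rat.IsWeil := hRAT l (c l) (hW l) (hc l)
  have h3 : (A.rat (c l)).IsPolarized := hRPL l A (c l) (hA l)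
  rw [Polarization.conjB_iff h2 h3]
  refine Pl.lefB_of_lefI (G := Polarization.toPl h2 h3) M ?_
  intro i hi
  refine (Polarization.lefschetzIn_iff h2 h3 i M).mp ?_
  intro hi'
  have hd : Z.dim X = (D l).dim X := (hc l).dim X
  have hi2 : i ≤ Z.dim X := by
    rw [hd]
    exact hi'
  obtain ⟨θ, hθ⟩ := hBIN c hW hc A X hX i hi2 M o (h1 i)
  refine ⟨(c l).cl _ _ θ, ⟨θ, rfl⟩, ?_⟩
  intro a ha
  have h4 := hθ l a ha
  rw [hd] at h4
  exact h4

end Pool.Std
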