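import Pool.Agent.Work.MP_a60482_ind.Blocks

/-! Block BIN: one cycle inducing the inverse Lefschetz isomorphism for all members. -/

open CategoryTheory MonoidalCategory CartesianMonoidalCategory

universe u v w x b y z

namespace Pool.Std

open Pool.KC (CycleTheory)

section One

variable {V : Type u} [Category.{v} V] [CartesianMonoidalCategory V]
variable {K : Type x} [Field K] {D : WeilCoh.{u, v, w, x} V K}

theorem BIN_add {X Y : V} (z z' : D.H (X ⊗ Y)) : D.actHom (z + z') = D.actHom z + D.actHom z' := by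
  refine LinearMap.ext fun a => ?_
  show D.push X Y (D.pull (fst X Y) a * (z + z')) =
    D.push X Y (D.pull (fst X Y) a * z) + D.push X Y (D.pull (fst X Y) a * z')
  rw [mul_add, map_add]

theorem BIN_smul {X Y : V} (k : K) (z : D.H (X ⊗ Y)) : D.actHom (k • z) = k • D.actHom z := by
  refine LinearMap.ext fun a => ?_
  show D.push X Y (D.pull (fst X Y) a * (k • z)) = k • D.push X Y (D.pull (fst X Y) a * z)
  rw [mul_smul_comm, map_smul]

theorem BIN_zero {X Y : V} : D.actHom (0 : D.H (X ⊗ Y)) = 0 := by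
  refine LinearMap.ext fun a => ?_
  show D.push X Y (D.pull (fst X Y) a * 0) = 0
  rw [mul_zero, map_zero]

theorem BIN_neg {X Y : V} (z : D.H (X ⊗ Y)) : D.actHom (-z) = -D.actHom z := by
  refine LinearMap.ext fun a => ?_
  show D.push X Y (D.pull (fst X Y) a * (-z)) = -D.push X Y (D.pull (fst X Y) a * z)
  rw [mul_neg, map_neg]

theorem BIN_act_add {X Y : V} (z z' : D.H (X ⊗ Y)) (a : D.H X) :
    D.act (z + z') a = D.act z a + D.act z' a := by
  show D.push X Y (D.pull (fst X Y) a * (z + z')) =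
    D.push X Y (D.pull (fst X Y) a * z) + D.push X Y (D.pull (fst X Y) a * z')
  rw [mul_add, map_add]

theorem BIN_act_smul {X Y : V} (k : K) (z : D.H (X ⊗ Y)) (a : D.H X) :
    D.act (k • z) a = k • D.act z a := by
  show D.push X Y (D.pull (fst X Y) a * (k • z)) = k • D.push X Y (D.pull (fst X Y) a * z)
  rw [mul_smul_comm, map_smul]

theorem BIN_act_zero {X Y : V} (a : D.H X) : D.act (0 : D.H (X ⊗ Y)) a = 0 := by
  show D.push X Y (D.pull (fst X Y) a * 0) = 0
  rw [mul_zero, map_zero]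

theorem BIN_act_neg {X Y : V} (z : D.H (X ⊗ Y)) (a : D.H X) : D.act (-z) a = -D.act z a := by
  show D.push X Y (D.pull (fst X Y) a * (-z)) = -D.push X Y (D.pull (fst X Y) a * z)
  rw [mul_neg, map_neg]

theorem BIN_id (h : D.IsWeil) (X : V) (a : D.H X) : D.act (D.diag X) a = a := by
  rw [← WeilCoh.act_eq h]
  have h1 := (WeilCoh.toWeil h).act_diag X
  have h2 := congrArg (fun f => f a) h1
  exact h2

theorem BIN_cast {X : V} {n m : ℕ} (hnm : n = m) {a : D.H X} (ha : a ∈ D.alg X n) :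
    a ∈ D.alg X m := hnm ▸ ha

theorem BIN_comm (h : D.IsWeil) {X : V} {z : D.H (X ⊗ X)} (hz : z ∈ D.alg (X ⊗ X) (D.dim X))
    (i : ℕ) (a : D.H X) : D.act z (GradedAlgebra.proj (D.R X).deg i a) =
      GradedAlgebra.proj (D.R X).deg i (D.act z a) := by
  rw [← WeilCoh.act_eq h, ← WeilCoh.act_eq h]
  have h1 := (WeilCoh.toWeil h).ops_mul_proj
    ((WeilCoh.toWeil h).act_mem_ops.mpr (Submodule.subset_span hz)) i
  exact congrArg (fun f => f a) h1

end One

section Family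

variable {V : Type u} [Category.{v} V] [CartesianMonoidalCategory V]
variable (Z : CycleTheory.{u, v, y} V) {ι : Type z} {K : ι → Type x}
    [∀ l, Field (K l)] [∀ l, CharZero (K l)] (D : ∀ l, WeilCoh.{u, v, w, x} V (K l))

theorem p_BIN (hLAB : S_LAB.{w, x, z}) (hDIM : S_DIM Z D) (hTHT : S_THT Z D) :
    S_BIN.{u, v, w, x, b, y, z} Z D := by
  intro c hW hc A X hT i hi M o hL
  obtain ⟨k, hk⟩ : ∃ k : ℕ, i + k = Z.dim X := ⟨Z.dim X - i, by omega⟩
  have hkk : Z.dim X - i = k := by omega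
  rw [hkk]
  obtain ⟨hA1, hA2⟩ := hTHT c hW hc X (A.c M) i k hk
  obtain ⟨-, hR2⟩ := hTHT c hW hc X (A.c M) (Z.dim X) 0 (by omega)
  obtain ⟨d, hd⟩ := hDIM c hW hc X hT
  have hmemA : ∀ l (a : Z.Z (X ⊗ X) (Z.dim X)),
      (c l).cl _ _ a ∈ (D l).alg (X ⊗ X) ((D l).dim X) := by
    intro l a
    exact BIN_cast ((hc l).dim X) (((hc l).span (X ⊗ X) (Z.dim X) ((c l).cl _ _ a)).2
      (Submodule.subset_span ⟨a, rfl⟩))
  -- the ring of the correspondences of degree zero
  let R : Subring (∀ l, Module.End (K l) ((D l).H X)) :=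
    { carrier := {r | ∃ a : Z.Z (X ⊗ X) (Z.dim X), ∀ l, ∀ e : (D l).H X,
        r l e = (D l).act ((c l).cl _ _ a) e}
      mul_mem' := by
        rintro r r' ⟨a, ha⟩ ⟨a', ha'⟩
        obtain ⟨θ, hθ⟩ := hR2 a a'
        refine ⟨θ, fun l e => ?_⟩
        rw [hθ l e, Pi.mul_apply, Module.End.mul_apply, ha, ha']
      one_mem' := ⟨Z.diag X, fun l e => by rw [(hc l).diag, BIN_id (hW l)]; rfl⟩
      add_mem' := by
        rintro r r' ⟨a, ha⟩ ⟨a', ha'⟩
        refine ⟨a + a', fun l e => ?_⟩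
        rw [Pi.add_apply, LinearMap.add_apply, ha, ha', map_add]
        exact (BIN_act_add _ _ _).symm
      zero_mem' := ⟨0, fun l e => by
        rw [map_zero]
        exact (BIN_act_zero _).symm⟩
      neg_mem' := by
        rintro r ⟨a, ha⟩
        refine ⟨-a, fun l e => ?_⟩
        rw [Pi.neg_apply, LinearMap.neg_apply, ha, map_neg]
        exact (BIN_act_neg _ _).symm }
  have hRmem : ∀ r, r ∈ R ↔ ∃ a : Z.Z (X ⊗ X) (Z.dim X), ∀ l, ∀ e : (D l).H X,
      r l e = (D l).act ((c l).cl _ _ a) e := fun r => Iff.rfl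
  -- the correspondences of degree `-2 k` after the Lefschetz operator
  let Θ : AddSubgroup (∀ l, Module.End (K l) ((D l).H X)) :=
    { carrier := {t | ∃ θ : Z.Z (X ⊗ X) i, ∀ l, ∀ e : (D l).H X,
        t l e = (D l).act ((c l).cl _ _ θ) ((c l).cl X 1 (A.c M) ^ k * e)}
      add_mem' := by
        rintro r r' ⟨a, ha⟩ ⟨a', ha'⟩
        refine ⟨a + a', fun l e => ?_⟩
        rw [Pi.add_apply, LinearMap.add_apply, ha, ha', map_add]
        exact (BIN_act_add _ _ _).symm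
      zero_mem' := ⟨0, fun l e => by
        rw [map_zero]
        exact (BIN_act_zero _).symm⟩
      neg_mem' := by
        rintro r ⟨a, ha⟩
        refine ⟨-a, fun l e => ?_⟩
        rw [Pi.neg_apply, LinearMap.neg_apply, ha, map_neg]
        exact (BIN_act_neg _ _).symm }
  have hΘmem : ∀ r, r ∈ Θ ↔ ∃ θ : Z.Z (X ⊗ X) i, ∀ l, ∀ e : (D l).H X,
      r l e = (D l).act ((c l).cl _ _ θ) ((c l).cl X 1 (A.c M) ^ k * e) := fun r => Iff.rfl
  let p : ∀ l, Module.End (K l) ((D l).H X) := fun l => GradedAlgebra.proj ((D l).R X).deg i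
  have hpdeg : ∀ l, ∀ e : (D l).H X, p l e ∈ (D l).deg X i := fun l e =>
    (WeilCoh.toWeil (hW l)).proj_mem i e
  have hpsame : ∀ l, ∀ e ∈ (D l).deg X i, p l e = e := fun l e he =>
    (WeilCoh.toWeil (hW l)).proj_same he
  have h1 : ∀ l, p l * p l = p l := fun l => LinearMap.ext fun e => hpsame l _ (hpdeg l e)
  have h2 : ∀ r ∈ R, ∀ l, r l * p l = p l * r l := by
    rintro r hr l
    obtain ⟨a, ha⟩ := (hRmem r).1 hr
    refine LinearMap.ext fun e => ?_
    rw [Module.End.mul_apply, Module.End.mul_apply, ha, ha]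
    exact BIN_comm (hW l) (hmemA l a) i e
  have h3 : ∀ r ∈ R, ∃ q : ℚ, ∀ l, LinearMap.trace (K l) ((D l).H X) (r l * p l) = (q : K l) := by
    rintro r hr
    obtain ⟨a, ha⟩ := (hRmem r).1 hr
    obtain ⟨q, hq⟩ := hT a i
    refine ⟨q, fun l => ?_⟩
    rw [← hq l]
    have h4 : r l = (D l).actHom ((c l).cl _ _ a) := LinearMap.ext fun e => ha l e
    rw [h4]
    rfl
  have h4 : ∀ (q : ℚ), ∀ t ∈ Θ, (fun l => (q : K l) • t l) ∈ Θ := by
    intro q t ht
    obtain ⟨a, ha⟩ := (hΘmem t).1 ht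
    refine (hΘmem _).2 ⟨q • a, fun l e => ?_⟩
    rw [(hc l).smul, LinearMap.smul_apply, ha]
    exact (BIN_act_smul _ _ _).symm
  have h5 : ∀ t ∈ Θ, t ∈ R := by
    intro t ht
    obtain ⟨a, ha⟩ := (hΘmem t).1 ht
    obtain ⟨a', ha'⟩ := hA1 a
    exact (hRmem _).2 ⟨a', fun l e => by rw [ha, ha']⟩
  have h6 : ∀ r ∈ R, ∀ t ∈ Θ, r * t ∈ Θ := by
    intro r hr t ht
    obtain ⟨a, ha⟩ := (hRmem r).1 hr
    obtain ⟨θ, hθ⟩ := (hΘmem t).1 ht
    obtain ⟨θ', hθ'⟩ := hA2 a θ
    refine (hΘmem _).2 ⟨θ', fun l e => ?_⟩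
    rw [hθ', Pi.mul_apply, Module.End.mul_apply, ha, hθ]
  have h7 : ∃ s ∈ Submodule.span (K o) {s | ∃ t ∈ Θ, t o = s}, s * p o = p o := by
    obtain ⟨ζ, hζ, hζ2⟩ := hL (by rw [← (hc o).dim X]; exact hi)
    have hζ' := ((hc o).span (X ⊗ X) i ζ).1 hζ
    have hdim : (D o).dim X - i = k := by rw [← (hc o).dim X]; exact hkk
    rw [hdim] at hζ2
    refine ⟨(D o).actHom ζ ∘ₗ LinearMap.mulLeft (K o) ((c o).cl X 1 (A.c M) ^ k), ?_, ?_⟩
    · clear hζ hζ2
      induction hζ' using Submodule.span_induction with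
      | mem ζ hζ =>
        obtain ⟨θ, rfl⟩ := hζ
        refine Submodule.subset_span ⟨fun l => (D l).actHom ((c l).cl _ _ θ) ∘ₗ
          LinearMap.mulLeft (K l) ((c l).cl X 1 (A.c M) ^ k), (hΘmem _).2 ⟨θ, fun l e => rfl⟩, rfl⟩
      | zero =>
        rw [BIN_zero, LinearMap.zero_comp]
        exact zero_mem _
      | add ζ ζ' _ _ h1 h2 =>
        rw [BIN_add, LinearMap.add_comp]
        exact add_mem h1 h2
      | smul q ζ _ h =>
        rw [BIN_smul, LinearMap.smul_comp]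
        exact Submodule.smul_mem _ _ h
    · refine LinearMap.ext fun e => ?_
      exact hζ2 _ (hpdeg o e)
  obtain ⟨t, ht, htp⟩ := hLAB p h1 R h2 h3 Θ h4 h5 h6 d hd o h7
  obtain ⟨θ, hθ⟩ := (hΘmem t).1 ht
  refine ⟨θ, fun l e he => ?_⟩
  rw [← hθ l e]
  have h8 := congrArg (fun f => f e) (htp l)
  have h9 : t l (p l e) = p l e := h8
  rwa [hpsame l e he] at h9

end Family

end Pool.Std
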