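import Pool.Agent.Work.MP_a60482_ind.B_PRJ42

/-!
Block BIN, complete.
-/

open CategoryTheory MonoidalCategory CartesianMonoidalCategory

universe u v w x b y z

namespace Pool.Std

open Pool.KC (CycleTheory)

variable {V : Type u} [Category.{v} V] [CartesianMonoidalCategory V]
variable (Z : CycleTheory.{u, v, y} V) {ι : Type z} {K : ι → Type x}
    [∀ l, Field (K l)] [∀ l, CharZero (K l)] (D : ∀ l, WeilCoh.{u, v, w, x} V (K l))

theorem BIN42_aux (c : ∀ l, ClassMap Z (D l)) (h : ∀ l, (D l).IsWeil)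
    (hc : ∀ l, (c l).IsCompatible) (X : V) (hT : TracesAgree c X) {i k : ℕ}
    (hik : i + k = Z.dim X) (e : Z.Z X k) (o : ι) (t : (D o).H (X ⊗ X))
    (ht : t ∈ (D o).alg (X ⊗ X) i)
    (hinv : ∀ a ∈ (D o).deg X i, (D o).act t ((c o).cl X k e * a) = a) :
    ∃ b : Z.Z (X ⊗ X) i, ∀ l, ∀ a ∈ (D l).deg X i,
      (D l).act ((c l).cl _ _ b) ((c l).cl X k e * a) = a := by
  obtain ⟨b, hb⟩ := Pool.KC.exists_inv_of_traces (T := fun l => Pool.Ind42.thy (h l))
    (fun l => (PRJ42_map (c l) (hc l)).conv (Pool.Ind42.toKC_isWeil (h l))) X (by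
      intro a i
      obtain ⟨q, hq⟩ := hT a i
      refine ⟨q, fun l => ?_⟩
      rw [← hq l]
      exact (Pool.KC.WeilData.traceOn_eq (Pool.Ind42.toKC_isWeil (h l)) (X := X) i _).symm)
    hik e o t (Pool.Ind42.mem_spn ht) (by
      intro a ha
      exact (Pool.Ind42.thy_act (h o) (X := X) (Y := X) t _).trans (hinv a ha))
  refine ⟨b, fun l a ha => ?_⟩
  exact (Pool.Ind42.thy_act (h l) (X := X) (Y := X) _ _).symm.trans (hb l a ha)

theorem p_BIN42 : S_BIN.{u, v, w, x, b, y, z} Z D := by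
  intro c h hc A X hT i hi M o hL
  have hdim : ∀ l, Z.dim X = (D l).dim X := fun l => (hc l).dim X
  rcases Nat.eq_zero_or_pos (Z.dim X - i) with hk | hk
  · obtain ⟨b, hb⟩ := Pool.KC.exists_cast
      (fun l => (PRJ42_map (c l) (hc l)).conv (Pool.Ind42.toKC_isWeil (h l)))
      (by omega : Z.dim X = i) (Z.diag X)
    refine ⟨b, fun l e he => ?_⟩
    have h1 : (c l).cl _ _ b = (D l).diag X := (hb l).trans ((hc l).diag X)
    have h2 := (Pool.Ind42.thy (h l)).act_diag X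
    have h3 : (Pool.Ind42.thy (h l)).act (X := X) (Y := X) ((D l).diag X) e = e :=
      LinearMap.congr_fun h2 e
    rw [h1, hk, pow_zero, one_mul]
    exact (Pool.Ind42.thy_act (h l) (X := X) (Y := X) _ _).symm.trans h3
  · obtain ⟨k, hk'⟩ : ∃ k, Z.dim X - i = k + 1 := ⟨Z.dim X - i - 1, by omega⟩
    obtain ⟨e, he⟩ := Pool.KC.exists_pow
      (fun l => (PRJ42_map (c l) (hc l)).conv (Pool.Ind42.toKC_isWeil (h l))) (A.c M) k
    have he' : ∀ l, (c l).cl X (k + 1) e = (c l).cl X 1 (A.c M) ^ (k + 1) := he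
    obtain ⟨t, ht, ht1⟩ := hL (by rw [← hdim o]; exact hi)
    obtain ⟨b, hb⟩ := BIN42_aux Z D c h hc X hT (by omega : i + (k + 1) = Z.dim X) e o t ht (by
      intro a ha
      rw [he' o, ← hk', hdim o]
      exact ht1 a ha)
    refine ⟨b, fun l a ha => ?_⟩
    rw [hk', ← he' l]
    exact hb l a ha

end Pool.Std
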