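import Pool.Agent.Work.MP_a60482_ind.Blocks

/-!
CNV: from a compatible family of cycle class maps to the internal form.
-/

open CategoryTheory MonoidalCategory CartesianMonoidalCategory

universe u v w x b y z

namespace Pool.Std

open Pool.KC (CycleTheory)

variable {V : Type u} [Category.{v} V] [CartesianMonoidalCategory V]
variable {K : Type x} [Field K]

/-- the internal form of a compatible cycle class map -/
def CNV_k {Z : CycleTheory.{u, v, y} V} {D : WeilCoh.{u, v, w, x} V K} (c : ClassMap Z D)
    (h : D.IsWeil) (hc : c.IsCompatible) : Pool.KC.CycleClass Z (WeilCoh.toWeil h) where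
  dim_eq := hc.dim
  cl := c.cl
  cl_smul := fun q a => hc.smul _ _ q a
  span_cl := by
    intro X i
    refine le_antisymm ?_ ?_
    · rw [Submodule.span_le]
      rintro _ ⟨a, rfl⟩
      exact Submodule.subset_span ((hc.span X i _).2 (Submodule.subset_span ⟨a, rfl⟩))
    · change Submodule.span K (D.alg X i : Set (D.H X)) ≤ _
      rw [Submodule.span_le]
      intro a ha
      exact (hc.span X i a).1 ha
  cl_mul := fun a b => hc.mul _ _ _ a b
  cl_pull := fun f i a => hc.pull _ _ f i a
  cl_push := fun a => (hc.push _ _ _ a).trans (WeilCoh.push_eq h _).symm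
  cl_diag := hc.diag

theorem p_CNV (Z : CycleTheory.{u, v, y} V) (D : WeilCoh.{u, v, w, x} V K) : S_CNV Z D := by
  intro c h hc
  refine ⟨CNV_k c h hc, fun _ _ _ => rfl, ?_⟩
  intro X i t
  have e : (WeilCoh.toWeil h).act t = D.actHom t := by
    refine LinearMap.ext fun a => ?_
    exact WeilCoh.act_eq h t a
  unfold Pool.KC.WeilTheory.traceOn WeilCoh.traceOn
  rw [e]

end Pool.Std
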