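import Pool.Agent.Work.MP_a60482_ind.B_FINx
import Pool.Agent.Work.StdConj01.Final

/-!
Block FIN2: the theorem with very general sections of squares, and with one rational cycle for
the operator `Λ`.
-/

open CategoryTheory MonoidalCategory CartesianMonoidalCategory

universe u v w x b y z

namespace Pool.Std

open Pool.KC (CycleTheory)

namespace FIN2

section one

variable {V : Type u} [Category.{v} V] [CartesianMonoidalCategory V]
variable {K : Type x} [Field K] [CharZero K] {D : WeilCoh.{u, v, w, x} V K}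
variable {G : Polarization.{u, v, w, x, b} D}

theorem conjB_zero {X : V} (M : G.Bund X) (hX : D.dim X = 0) : G.ConjB M := by
  refine ⟨0, zero_mem _, ?_⟩
  intro i y _
  refine ⟨?_, fun j hj => absurd hj (by omega)⟩
  unfold WeilCoh.act WeilCoh.pf
  rw [mul_zero, map_zero]

/-- the list of equivalent statements for one theory -/
theorem tfae_one (h : D.IsWeil) (hK : D.CoefficientsIn K) (hc : D.Connected)
    (hP : G.IsPolarized) (hH : G.HasHypersurfaces) (hS : G.HasSections) {P : V → Prop}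
    (hgen : G.GeneratedBy P) (hcl : G.Closed P) :
    [∀ X : V, D.ConjC X,
      ∀ X : V, D.SignConj X,
      ∀ (X : V) (M : G.Bund X), G.ConjB M,
      ∀ (X : V) (M : G.Bund X), P X → G.ConjB M,
      ∀ n ≥ 1, ∀ U : V, P U → D.dim U = 2 * n → D.rank U (n - 1) = D.rank U (n + 1),
      ∀ X : V, P X → D.ConjC X ∧
        (1 ≤ D.dim X → D.rank (X ⊗ X) (D.dim X - 1) = D.rank (X ⊗ X) (D.dim X + 1)),
      ∀ (X Y : V) (M : G.Bund X) (i : Y ⟶ X ⊗ X), P X → G.VeryGeneral (G.box M M) i →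
        D.ConjC Y,
      ∀ (X : V) (M : G.Bund X), P X → 1 ≤ D.dim X →
        ∃ (Y : V) (i : Y ⟶ X ⊗ X), G.VeryGeneral (G.box M M) i ∧ D.ConjC Y].TFAE := by
  have key := Polarization.tfae_prime (G := G) h hK hc hP hH hS hgen hcl
  tfae_have 1 ↔ 2 := key.out 0 1
  tfae_have 1 ↔ 3 := key.out 0 2
  tfae_have 1 ↔ 4 := key.out 0 3
  tfae_have 1 ↔ 5 := key.out 0 4
  tfae_have 1 ↔ 6 := key.out 0 5
  tfae_have 1 → 7 := fun hC X Y M i _ _ => hC Y
  tfae_have 7 → 8 := by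
    intro hC X M hX hd
    obtain ⟨Y, i, hY⟩ := hS (X ⊗ X) (G.box M M) (D.dim X) hd (by
      rw [h.kunneth.dim]
      omega)
    exact ⟨Y, i, hY, hC X Y M i hX hY⟩
  tfae_have 8 → 4 := by
    intro hC X M hX
    rcases Nat.eq_zero_or_pos (D.dim X) with h0 | h0
    · exact conjB_zero M h0
    · obtain ⟨Y, i, hY, hCY⟩ := hC X M hX h0
      exact (Polarization.conjB_iff_conjC h hK hc hP M hY).mpr hCY
  tfae_finish

end one

end FIN2

section Family

variable {V : Type u} [Category.{v} V] [CartesianMonoidalCategory V]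
variable (Z : CycleTheory.{u, v, y} V) {ι : Type z} {K : ι → Type x}
    [∀ l, Field (K l)] [∀ l, CharZero (K l)] (D : ∀ l, WeilCoh.{u, v, w, x} V (K l))

/-- LAM: one rational cycle for the operator `Λ` -/
def S_LAM8 : Prop :=
  ∀ (c : ∀ l, ClassMap Z (D l)), (∀ l, (D l).IsWeil) → (∀ l, (c l).IsCompatible) →
    ∀ A : Ample.{u, v, b, y} Z, (∀ l, (A.pol (c l)).IsPolarized) →
    ∀ X : V, TracesAgree c X → ∀ (M : A.Bund X) (o : ι), (A.pol (c o)).ConjB M →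
    ∃ a : Z.Z (X ⊗ X) (Z.dim X - 1), ∀ l, (A.pol (c l)).IsLambda M ((D l).act ((c l).cl _ _ a))

/-- the theorem -/
def S_FIN2 : Prop :=
  ∀ (c : ∀ l, ClassMap Z (D l)), (∀ l, (D l).IsWeil) → (∀ l, (c l).IsCompatible) →
    ∀ A : Ample.{u, v, b, y} Z, (∀ l, (A.pol (c l)).IsPolarized) →
    (∀ X : V, TracesAgree c X → ∀ o : ι,
      (∀ S : Set ℕ, (∃ t ∈ (D o).alg (X ⊗ X) ((D o).dim X), (D o).IsProj S t) →
        ∃ a : Z.Z (X ⊗ X) (Z.dim X), ∀ l, (D l).IsProj S ((c l).cl _ _ a)) ∧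
      ∀ M : A.Bund X, (∀ i ≤ Z.dim X, (A.pol (c o)).LefschetzIn i M →
        ∃ θ : Z.Z (X ⊗ X) i, ∀ l, ∀ e ∈ (D l).deg X i,
          (D l).act ((c l).cl _ _ θ) ((c l).cl X 1 (A.c M) ^ (Z.dim X - i) * e) = e) ∧
        ((A.pol (c o)).ConjB M → ∃ a : Z.Z (X ⊗ X) (Z.dim X - 1), ∀ l,
          (A.pol (c l)).IsLambda M ((D l).act ((c l).cl _ _ a)))) ∧
    ((∀ l, (D l).Connected) → (∀ l, (A.pol (c l)).HasHypersurfaces) →
      (∀ l, (A.pol (c l)).HasSections) → ∀ P : V → Prop, (∀ l, (A.pol (c l)).GeneratedBy P) →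
      (∀ l, (A.pol (c l)).Closed P) →
      (∀ l, [∀ X : V, (D l).ConjC X,
        ∀ X : V, (D l).SignConj X,
        ∀ (X : V) (M : A.Bund X), (A.pol (c l)).ConjB M,
        ∀ (X : V) (M : A.Bund X), P X → (A.pol (c l)).ConjB M,
        ∀ n ≥ 1, ∀ U : V, P U → (D l).dim U = 2 * n →
          (D l).rank U (n - 1) = (D l).rank U (n + 1),
        ∀ X : V, P X → (D l).ConjC X ∧ (1 ≤ (D l).dim X →
          (D l).rank (X ⊗ X) ((D l).dim X - 1) = (D l).rank (X ⊗ X) ((D l).dim X + 1)),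
        ∀ (X Y : V) (M : A.Bund X) (i : Y ⟶ X ⊗ X), P X →
          (A.pol (c l)).VeryGeneral (A.box M M) i → (D l).ConjC Y,
        ∀ (X : V) (M : A.Bund X), P X → 1 ≤ (D l).dim X → ∃ (Y : V) (i : Y ⟶ X ⊗ X),
          (A.pol (c l)).VeryGeneral (A.box M M) i ∧ (D l).ConjC Y].TFAE) ∧
      ((∀ X : V, TracesAgree c X) → (∃ l, ∀ X : V, (D l).SignConj X) →
        (∀ (X : V) (i : ℕ), ∃ a : Z.Z (X ⊗ X) (Z.dim X), ∀ l,
          (D l).IsProj {i} ((c l).cl _ _ a)) ∧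
        ∀ (X : V) (M : A.Bund X), ∃ a : Z.Z (X ⊗ X) (Z.dim X - 1), ∀ l,
          (A.pol (c l)).IsLambda M ((D l).act ((c l).cl _ _ a))))

theorem p_FIN2 (h1 : S_PRJ.{u, v, w, x, y, z} Z D) (h2 : S_BIN.{u, v, w, x, b, y, z} Z D)
    (h3 : S_LAM8.{u, v, w, x, b, y, z} Z D) : S_FIN2.{u, v, w, x, b, y, z} Z D := by
  intro c hD hc A hA
  refine ⟨fun X hT o => ⟨fun S => h1 c hD hc X hT S o, fun M => ⟨fun i hi hl =>
    h2 c hD hc A X hT i hi M o hl, h3 c hD hc A hA X hT M o⟩⟩, ?_⟩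
  intro hcon hH hS P hgen hcl
  have hcoeff : ∀ l, (D l).CoefficientsIn (K l) := fun l => FINx.coeff (hc l)
  have key := fun l => FIN2.tfae_one (G := A.pol (c l)) (hD l) (hcoeff l) (hcon l)
    (hA l) (hH l) (hS l) (hgen l) (hcl l)
  refine ⟨key, ?_⟩
  rintro hT ⟨o, ho⟩
  have hC : ∀ X : V, (D o).ConjC X := ((key o).out 1 0).mp ho
  have hB : ∀ (X : V) (M : A.Bund X), (A.pol (c o)).ConjB M := ((key o).out 1 2).mp ho
  exact ⟨fun X i => h1 c hD hc X (hT X) {i} o ((FINx.conjC_iff X).mp (hC X) i),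
    fun X M => h3 c hD hc A hA X (hT X) M o (hB X M)⟩

end Family

end Pool.Std
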