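import Pool.Agent.Work.MP_a60482_ind.Blocks

/-!
Block FIN.
-/

open CategoryTheory MonoidalCategory CartesianMonoidalCategory

universe u v w x b y z

namespace Pool.Std

open Pool.KC (CycleTheory)

namespace FINx

section one

variable {V : Type u} [Category.{v} V] [CartesianMonoidalCategory V]
variable {K : Type x} [Field K] {Z : CycleTheory.{u, v, y} V} {D : WeilCoh.{u, v, w, x} V K}

theorem coeff {c : ClassMap Z D} (hc : c.IsCompatible) : D.CoefficientsIn K where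
  smul X i q a ha := by
    rw [hc.span] at ha ⊢
    exact Submodule.smul_mem _ _ ha
  degree X a _ := ⟨D.int a, rfl⟩

theorem exists_cast (c : ClassMap Z D) {Y : V} {m m' : ℕ} (hm : m = m') (a : Z.Z Y m) :
    ∃ a' : Z.Z Y m', c.cl Y m' a' = c.cl Y m a := by
  subst hm
  exact ⟨a, rfl⟩

theorem rat_mem {c : ClassMap Z D} (hc : c.IsCompatible) (X : V) (a : Z.Z (X ⊗ X) (Z.dim X)) :
    c.cl _ _ a ∈ c.rat.alg (X ⊗ X) (c.rat.dim X) := by
  obtain ⟨a', ha'⟩ := exists_cast c (hc.dim X) a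
  rw [← ha']
  exact ⟨a', rfl⟩

theorem conjC_iff (X : V) : D.ConjC X ↔
    ∀ i : ℕ, ∃ t ∈ D.alg (X ⊗ X) (D.dim X), D.IsProj {i} t := by
  unfold WeilCoh.ConjC WeilCoh.IsProj
  refine forall_congr' fun i => exists_congr fun z => and_congr Iff.rfl ⟨?_, ?_⟩
  · rintro ⟨h1, h2⟩ j a ha
    refine ⟨fun hj => ?_, fun hj => h2 j hj a ha⟩
    obtain rfl : j = i := hj
    exact h1 a ha
  · intro h
    exact ⟨fun a ha => (h i a ha).1 rfl, fun j hj a ha => (h j a ha).2 hj⟩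

end one

end FINx

section Family

variable {V : Type u} [Category.{v} V] [CartesianMonoidalCategory V]
variable (Z : CycleTheory.{u, v, y} V) {ι : Type z} {K : ι → Type x}
    [∀ l, Field (K l)] [∀ l, CharZero (K l)] (D : ∀ l, WeilCoh.{u, v, w, x} V (K l))

theorem p_FIN (h1 : S_PRJ.{u, v, w, x, y, z} Z D) (h2 : S_BIN.{u, v, w, x, b, y, z} Z D)
    (h3 : S_BAL.{u, v, w, x, b, y, z} Z D) : S_FIN.{u, v, w, x, b, y, z} Z D := by
  intro c hD hc A hA
  refine ⟨fun X hT o => ⟨fun S => h1 c hD hc X hT S o, fun M => ⟨fun i hi hl =>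
    h2 c hD hc A X hT i hi M o hl, h3 c hD hc A hA X hT M o⟩⟩, ?_⟩
  intro hcon hH hS P hgen hcl
  have hcoeff : ∀ l, (D l).CoefficientsIn (K l) := fun l => FINx.coeff (hc l)
  have key := fun l => Polarization.tfae_prime (G := A.pol (c l)) (hD l) (hcoeff l) (hcon l)
    (hA l) (hH l) (hS l) (hgen l) (hcl l)
  refine ⟨key, ?_⟩
  rintro hT ⟨o, ho⟩ l
  have hC : ∀ X : V, (D o).ConjC X := ((key o).out 1 0).mp ho
  have hB : ∀ (X : V) (M : A.Bund X), (A.pol (c o)).ConjB M := ((key o).out 1 2).mp ho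
  refine ⟨fun X => ?_, fun X M => h3 c hD hc A hA X (hT X) M o (hB X M) l⟩
  rw [FINx.conjC_iff]
  intro i
  obtain ⟨a, ha⟩ := h1 c hD hc X (hT X) {i} o ((FINx.conjC_iff X).mp (hC X) i)
  exact ⟨_, FINx.rat_mem (hc l) X a, ha l⟩

end Family

end Pool.Std
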