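import Pool.Agent.Work.MP_a60482_ind.Blocks
import Pool.Agent.Work.MP_a60482_kc.FamAlg

/-!
Block LAB.
-/

open CategoryTheory MonoidalCategory CartesianMonoidalCategory

universe u v w x b y z

namespace Pool.Std

namespace LABx

/-- powers of `y * p` for an idempotent `p` commuting with `y` -/
theorem pow_proj {A : Type*} [Ring A] {y p : A} (hc : y * p = p * y) (hp : p * p = p) (k : ℕ) :
    (y * p) ^ (k + 1) = y ^ (k + 1) * p := by
  have hcomm : Commute y p := hc
  induction k with
  | zero => simp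
  | succ k ih =>
    rw [pow_succ, ih, pow_succ y (k + 1), mul_assoc, mul_assoc]
    congr 1
    rw [← mul_assoc, ← hc, mul_assoc, hp]

end LABx

/-- Block LAB. -/
theorem p_LAB : S_LAB.{w, x, z} := by
  classical
  intro ι K _ _ H _ _ _ p hp R hc htr Θ hq hΘR hmul d hd o hs
  obtain ⟨s, hs, hsp⟩ := hs
  obtain ⟨ρ, hρ⟩ := Pool.KC.exists_retraction (K o)
  have hρm : ∀ (k : K o) (q : ℚ), ρ (k * (q : K o)) = ρ k * q := by
    intro k q
    have h1 : k * (q : K o) = q • k := by
      rw [Rat.smul_def, mul_comm]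
    rw [h1, map_smul, smul_eq_mul, mul_comm]
  have hset : {s | ∃ t ∈ Θ, t o = s} = (fun t : (∀ l, Module.End (K l) (H l)) => t o) ''
      (Θ : Set (∀ l, Module.End (K l) (H l))) := by
    ext s
    rfl
  rw [hset, Finsupp.mem_span_image_iff_linearCombination] at hs
  obtain ⟨c, hcs, hcl⟩ := hs
  have hcΘ : ∀ t ∈ c.support, t ∈ Θ := fun t ht => hcs ht
  have hsum : s = ∑ t ∈ c.support, c t • t o := by
    rw [← hcl, Finsupp.linearCombination_apply]
    rfl
  -- the rational element
  set X : ∀ l, Module.End (K l) (H l) := ∑ t ∈ c.support, (fun l => ((ρ (c t) : ℚ) : K l) • t l) with hX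
  have hXΘ : X ∈ Θ := sum_mem fun t ht => hq _ t (hcΘ t ht)
  have hXl : ∀ l, X l = ∑ t ∈ c.support, ((ρ (c t) : ℚ) : K l) • t l := by
    intro l
    rw [hX, Finset.sum_apply]
  have hXR : X ∈ R := hΘR X hXΘ
  have key : ∀ r ∈ R, ∀ l, LinearMap.trace (K l) (H l) (r l * X l * p l) =
      LinearMap.trace (K l) (H l) (r l * p l) := by
    intro r hr l
    obtain ⟨q, hqr⟩ := htr r hr
    have h1 : ∀ t : (∀ l, Module.End (K l) (H l)), ∃ q : ℚ, t ∈ c.support →
        ∀ l, LinearMap.trace (K l) (H l) (r l * t l * p l) = (q : K l) := by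
      intro t
      by_cases ht : t ∈ c.support
      · obtain ⟨q', hq'⟩ := htr (r * t) (hΘR _ (hmul r hr t (hcΘ t ht)))
        exact ⟨q', fun _ => hq'⟩
      · exact ⟨0, fun h => absurd h ht⟩
    choose Q hQ using h1
    have h2 : ∑ t ∈ c.support, c t * (Q t : K o) = (q : K o) := by
      rw [← hqr o]
      have h3 : r o * p o = ∑ t ∈ c.support, c t • (r o * t o * p o) := by
        have h30 : r o * p o = r o * (s * p o) := by rw [hsp]
        rw [h30, hsum, Finset.sum_mul, Finset.mul_sum]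
        refine Finset.sum_congr rfl fun t _ => ?_
        rw [smul_mul_assoc, mul_smul_comm, mul_assoc]
      rw [h3, map_sum]
      refine Finset.sum_congr rfl fun t ht => ?_
      rw [map_smul, hQ t ht o, smul_eq_mul]
    have h4 : ∑ t ∈ c.support, ρ (c t) * Q t = q := by
      rw [← hρ q, ← h2, map_sum]
      exact Finset.sum_congr rfl fun t _ => (hρm _ _).symm
    rw [hqr l, ← h4, hXl, Finset.mul_sum, Finset.sum_mul, map_sum]
    push_cast
    refine Finset.sum_congr rfl fun t ht => ?_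
    rw [mul_smul_comm, smul_mul_assoc, map_smul, hQ t ht l, smul_eq_mul]
  -- the complement
  set Y : ∀ l, Module.End (K l) (H l) := 1 - X with hY
  have hYR : Y ∈ R := sub_mem (one_mem _) hXR
  have hYl : ∀ l, Y l = 1 - X l := fun l => rfl
  have hnil : ∀ l, Y l ^ (d + 1) * p l = 0 := by
    intro l
    have h5 : IsNilpotent (Y l * p l) := by
      apply Pool.KC.isNilpotent_of_trace
      intro k hk
      obtain ⟨m, rfl⟩ : ∃ m, k = m + 1 := ⟨k - 1, by omega⟩
      rw [LABx.pow_proj (hc Y hYR l) (hp l), pow_succ]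
      have h6 := key (Y ^ m) (pow_mem hYR m) l
      have h7 : (Y ^ m) l = Y l ^ m := rfl
      rw [h7] at h6
      have h8 : Y l ^ m * Y l * p l = Y l ^ m * p l - Y l ^ m * X l * p l := by
        have h9 : Y l ^ m * Y l = Y l ^ m - Y l ^ m * X l := by
          rw [hYl l, mul_sub, mul_one]
        rw [h9, sub_mul]
      rw [h8, map_sub, h6, sub_self]
    have h10 := Pool.KC.pow_eq_zero_of_nilpotent h5 (hd l)
    rw [← LABx.pow_proj (hc Y hYR l) (hp l), pow_succ, h10, zero_mul]
  refine ⟨(∑ k ∈ Finset.range (d + 1), Y ^ k) * X, hmul _ (sum_mem fun k _ => pow_mem hYR k) X hXΘ, ?_⟩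
  intro l
  have h11 : (∑ k ∈ Finset.range (d + 1), Y ^ k) * X = 1 - Y ^ (d + 1) := by
    have h12 : X = 1 - Y := by rw [hY, sub_sub_cancel]
    conv_lhs => rw [h12]
    exact geom_sum_mul_neg Y (d + 1)
  have h13 : ((∑ k ∈ Finset.range (d + 1), Y ^ k) * X) l = 1 - Y l ^ (d + 1) := by
    rw [h11]
    rfl
  rw [h13, sub_mul, one_mul, hnil l, sub_zero]

end Pool.Std
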