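import Pool.Agent.Work.MP_a60482_ind.Final
import Pool.Agent.Work.MP_a60482_ind.B_BIN42
import Pool.Agent.Work.MP_a60482_ind_h42.Lam

/-!
Block LAM, complete.
-/

open CategoryTheory MonoidalCategory CartesianMonoidalCategory

universe u v w x b y z

namespace Pool.Std

open Pool.KC (CycleTheory)

variable {V : Type u} [Category.{v} V] [CartesianMonoidalCategory V]
variable (Z : CycleTheory.{u, v, y} V) {ι : Type z} {K : ι → Type x}
    [∀ l, Field (K l)] [∀ l, CharZero (K l)] (D : ∀ l, WeilCoh.{u, v, w, x} V (K l))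

theorem p_LAM42 : S_LAM.{u, v, w, x, b, y, z} Z D := by
  intro c h hc A hP X hT M o hB
  have hdim : ∀ l, Z.dim X = (D l).dim X := fun l => (hc l).dim X
  have hLB := (Polarization.conjB_iff (h o) (hP o) M).mp hB
  have hC : (D o).ConjC X := Polarization.conjC_of_lefB (h o) (hP o) hLB
  have hπ : ∀ m : ℕ, ∃ p : Z.Z (X ⊗ X) (Z.dim X), ∀ l,
      (D l).IsProj {m} ((c l).cl (X ⊗ X) (Z.dim X) p) := by
    intro m
    obtain ⟨t, ht, h1, h2⟩ := hC m
    refine p_PRJ42 Z D c h hc X hT {m} o ⟨t, ht, fun i a ha => ⟨fun hi => ?_, fun hi => ?_⟩⟩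
    · have hi' : i = m := hi
      subst hi'
      exact h1 a ha
    · exact h2 i (fun hi' => hi hi') a ha
  have hθ : ∀ i k : ℕ, i + k = Z.dim X → ∃ t : Z.Z (X ⊗ X) i, ∀ l, ∀ a ∈ (D l).deg X i,
      (D l).act ((c l).cl _ _ t) ((c l).cl X 1 (A.c M) ^ k * a) = a := by
    intro i k hik
    obtain ⟨t, ht⟩ := p_BIN42 Z D c h hc A X hT i (by omega) M o
      ((Polarization.lefschetzIn_iff (h o) (hP o) i M).mpr
        (Pl.lefI_of_lefB (G := Polarization.toPl (h o) (hP o)) M hLB i))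
    refine ⟨t, fun l a ha => ?_⟩
    have h1 := ht l a ha
    rwa [show Z.dim X - i = k by omega] at h1
  have hact : ∀ l (k : ℕ) (t : Z.Z (X ⊗ X) k) (e : (D l).H X),
      (Pool.Ind42.thy (h l)).act (X := X) (Y := X)
        (((PRJ42_map (c l) (hc l)).conv (Pool.Ind42.toKC_isWeil (h l))).cl (X ⊗ X) k t) e =
      (D l).act ((c l).cl (X ⊗ X) k t) e := fun l k t e =>
    Pool.Ind42.thy_act (h l) (X := X) (Y := X) _ e
  obtain ⟨d, hd⟩ := Pool.KC.exists_lam (T := fun l => Pool.Ind42.thy (h l))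
    (fun l => (PRJ42_map (c l) (hc l)).conv (Pool.Ind42.toKC_isWeil (h l))) (X := X) (A.c M)
    (by
      intro m
      obtain ⟨p, hp⟩ := hπ m
      refine ⟨p, fun l => ⟨fun a ha => (hact l _ p a).trans ((hp l m a ha).1 rfl), ?_⟩⟩
      intro m' hm' a ha
      exact (hact l _ p a).trans ((hp l m' a ha).2 hm'))
    (by
      intro i k hik
      obtain ⟨t, ht⟩ := hθ i k hik
      exact ⟨t, fun l a ha => (hact l _ t _).trans (ht l a ha)⟩)
  refine ⟨d, fun l i y hy => ?_⟩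
  obtain ⟨h1, h2⟩ := hd l i y hy
  refine ⟨(hact l _ d y).symm.trans h1, fun j hj => ?_⟩
  exact (hact l _ d _).symm.trans (h2 j hj)

end Pool.Std
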