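import Pool.Agent.Work.MP_a60482_ind.Blocks

/-!
Block PRJ (helper45).
-/

set_option autoImplicit false

open CategoryTheory MonoidalCategory CartesianMonoidalCategory

universe u v w x b y z

namespace Pool.Std

open Pool.KC (CycleTheory)

namespace IndPRJ

variable {V : Type u} [Category.{v} V] [CartesianMonoidalCategory V] {K : Type x} [Field K]
  (T : Pool.KC.WeilTheory.{u, v, w, x} V K)

theorem sum_proj_apply {X : V} (A : Finset ℕ) {i : ℕ} {a : T.H X} (ha : a ∈ T.deg X i)
    [Decidable (i ∈ A)] : (∑ j ∈ A, T.proj X j) a = if i ∈ A then a else 0 := by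
  rw [LinearMap.sum_apply]
  by_cases hi : i ∈ A
  · rw [if_pos hi, Finset.sum_eq_single i]
    · exact T.proj_same ha
    · intro j _ hj
      exact T.proj_ne ha (Ne.symm hj)
    · intro h
      exact absurd hi h
  · rw [if_neg hi]
    refine Finset.sum_eq_zero fun j hj => T.proj_ne ha ?_
    rintro rfl
    exact hi hj

theorem act_sum {X : V} (A : Finset ℕ) (hA : ∀ i ∈ A, i ≤ 2 * T.dim X) :
    T.act (∑ i ∈ A, T.kunnethComponent X i) = ∑ i ∈ A, T.proj X i := by
  classical
  induction A using Finset.induction_on with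
  | empty => rw [Finset.sum_empty, Finset.sum_empty, T.act_zero]
  | insert i A hi ih =>
    rw [Finset.sum_insert hi, Finset.sum_insert hi, T.act_add,
      ih (fun j hj => hA j (Finset.mem_insert_of_mem hj)),
      T.act_kunneth (hA i (Finset.mem_insert_self i A))]

theorem isProj_iff {X : V} (S : Set ℕ) (A : Finset ℕ)
    (hA : ∀ i, i ∈ A ↔ i ≤ 2 * T.dim X ∧ i ∈ S) (t : T.H (X ⊗ X)) :
    (∀ i : ℕ, ∀ a ∈ T.deg X i, (i ∈ S → T.act t a = a) ∧ (i ∉ S → T.act t a = 0)) ↔
      t = ∑ i ∈ A, T.kunnethComponent X i := by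
  classical
  have hz : ∀ (i : ℕ) (a : T.H X), a ∈ T.deg X i → i ∉ A → i ∈ S → a = 0 := by
    intro i a ha hi hS
    refine T.deg_eq_zero ha ?_
    by_contra hc
    push Not at hc
    exact hi ((hA i).2 ⟨hc, hS⟩)
  constructor
  · intro h
    apply T.act_injective
    rw [act_sum T A (fun i hi => ((hA i).1 hi).1)]
    refine LinearMap.ext fun a => ?_
    refine T.hind (P := fun a => T.act t a = (∑ i ∈ A, T.proj X i) a)
      (by rw [map_zero, map_zero]) ?_ ?_ a
    · intro i a ha
      rw [sum_proj_apply T A ha]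
      by_cases hi : i ∈ A
      · rw [if_pos hi]
        exact (h i a ha).1 ((hA i).1 hi).2
      · rw [if_neg hi]
        by_cases hS : i ∈ S
        · rw [hz i a ha hi hS, map_zero]
        · exact (h i a ha).2 hS
    · intro a b h1 h2
      rw [map_add, map_add, h1, h2]
  · rintro rfl i a ha
    rw [act_sum T A (fun i hi => ((hA i).1 hi).1), sum_proj_apply T A ha]
    constructor
    · intro hS
      by_cases hi : i ∈ A
      · rw [if_pos hi]
      · rw [if_neg hi]
        exact (hz i a ha hi hS).symm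
    · intro hS
      rw [if_neg (fun hi => hS ((hA i).1 hi).2)]

end IndPRJ

section Family

variable {V : Type u} [Category.{v} V] [CartesianMonoidalCategory V]
  (Z : CycleTheory.{u, v, y} V) {ι : Type z} {K : ι → Type x}
    [∀ l, Field (K l)] [∀ l, CharZero (K l)] (D : ∀ l, WeilCoh.{u, v, w, x} V (K l))

/-- Block PRJ. -/
theorem p_PRJ (hCNV : ∀ l, S_CNV Z (D l)) : S_PRJ Z D := by
  classical
  intro c hW hc X hT S o ht
  obtain ⟨t, ht, hP⟩ := ht
  choose k hk htr using fun l => hCNV l (c l) (hW l) (hc l)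
  have hdim : ∀ l, Z.dim X = (D l).dim X := fun l => (hc l).dim X
  obtain ⟨A, hA⟩ : ∃ A : Finset ℕ, ∀ i, i ∈ A ↔ i ≤ 2 * Z.dim X ∧ i ∈ S := by
    refine ⟨(Finset.range (2 * Z.dim X + 1)).filter (fun i => i ∈ S), fun i => ?_⟩
    rw [Finset.mem_filter, Finset.mem_range, Nat.lt_succ_iff]
  have hiff : ∀ l (t : (D l).H (X ⊗ X)), (D l).IsProj S t ↔
      t = ∑ i ∈ A, (WeilCoh.toWeil (hW l)).kunnethComponent X i := by
    intro l t
    have h1 := IndPRJ.isProj_iff (WeilCoh.toWeil (hW l)) (X := X) S A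
      (fun i => by rw [hA i, hdim l]) t
    refine Iff.trans ?_ h1
    refine forall_congr' fun i => forall_congr' fun a => forall_congr' fun _ => ?_
    rw [WeilCoh.act_eq (hW l)]
  obtain ⟨a, ha⟩ := Pool.KC.exists_cycle_of_traces (T := fun l => WeilCoh.toWeil (hW l)) k X
    (by
      intro a i
      obtain ⟨q, hq⟩ := hT a i
      refine ⟨q, fun l => ?_⟩
      rw [hk l, htr l, hq l]) (S := A)
    (by
      intro i hi
      rw [Finset.mem_range, Nat.lt_succ_iff]
      exact ((hA i).1 hi).1) o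
    (by
      rw [← (hiff o t).1 hP, hdim o]
      exact Submodule.subset_span ht)
  refine ⟨a, fun l => ?_⟩
  rw [hiff l, ← hk l, ha l]

end Family

end Pool.Std
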