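import Pool.Agent.Work.MP_a60482_ind.Blocks
import Pool.Agent.Work.MP_a60482_ind_h42.Inv

/-!
Block PRJ, complete.
-/

open CategoryTheory MonoidalCategory CartesianMonoidalCategory

universe u v w x b y z

namespace Pool.Std

open Pool.KC (CycleTheory)

variable {V : Type u} [Category.{v} V] [CartesianMonoidalCategory V]

section

variable {Z : CycleTheory.{u, v, y} V} {K : Type x} [Field K] {D : WeilCoh.{u, v, w, x} V K}

theorem PRJ42_mem (c : ClassMap Z D) (hc : c.IsCompatible) (X : V) (i : ℕ) (a : D.H X) :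
    a ∈ Pool.Ind42.spn D X i ↔ a ∈ Submodule.span K (Set.range (c.cl X i)) := by
  have h1 : (D.alg X i : Set (D.H X)) =
      (Submodule.span K (Set.range (c.cl X i)) : Set (D.H X)) := by
    ext t
    exact hc.span X i t
  unfold Pool.Ind42.spn
  rw [h1, Submodule.span_eq]

/-- conversion -/
def PRJ42_map (c : ClassMap Z D) (hc : c.IsCompatible) :
    Pool.KC.CycleClassMap Z (Pool.Ind42.toKC D) where
  cl := fun X i a => c.cl X i a
  span :=
    { dim := hc.dim
      add := fun _ _ _ _ => map_add _ _ _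
      smul := hc.smul
      span := fun X i => Submodule.ext fun a => (PRJ42_mem c hc X i a).symm }
  compat := ⟨hc.mul, hc.pull, hc.push, hc.diag⟩

end

variable (Z : CycleTheory.{u, v, y} V) {ι : Type z} {K : ι → Type x}
    [∀ l, Field (K l)] [∀ l, CharZero (K l)] (D : ∀ l, WeilCoh.{u, v, w, x} V (K l))

theorem p_PRJ42 : S_PRJ Z D := by
  intro c h hc X hT S o ht
  obtain ⟨t, ht, htS⟩ := ht
  obtain ⟨a, ha⟩ := Pool.Ind42.exists_prj (Z := Z) h (fun l => PRJ42_map (c l) (hc l)) X
    (fun a i => hT a i) S o t (Pool.Ind42.mem_spn ht)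
    ⟨fun i hi e he => (htS i e he).1 hi, fun i hi e he => (htS i e he).2 hi⟩
  exact ⟨a, fun l i e he => ⟨fun hi => (ha l).1 i hi e he, fun hi => (ha l).2 i hi e he⟩⟩

end Pool.Std
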