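import Pool.Agent.Work.MP_a60482_ind.Blocks

/-!
# RAT: the theory with rational algebraic classes is a Weil cohomology theory
-/

open CategoryTheory MonoidalCategory CartesianMonoidalCategory

universe u v w x b y z

namespace Pool.Std

open Pool.KC (CycleTheory)

namespace RAT

variable {V : Type u} [Category.{v} V] [CartesianMonoidalCategory V]
variable {K : Type x} [Field K]
variable {Z : CycleTheory.{u, v, y} V} {D : WeilCoh.{u, v, w, x} V K}

theorem pf_diag (hD : D.IsWeil) (X : V) : D.pf (D.diag X) = 1 := by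
  have h3 : D.act (D.diag X) 1 = 1 := by
    rw [← WeilCoh.act_eq hD]
    have h : (WeilCoh.toWeil hD).act (D.diag X) = LinearMap.id := (WeilCoh.toWeil hD).act_diag X
    rw [h]
    rfl
  unfold WeilCoh.act at h3
  have h4 : D.pb (fst X X) 1 = 1 := map_one _
  rw [h4, one_mul] at h3
  exact h3

theorem push_mem {c : ClassMap Z D} (hc : c.IsCompatible) (X Y : V) (i m : ℕ) (hm : m = Z.dim X)
    (t : D.H (X ⊗ Y)) (ht : t ∈ (c.cl (X ⊗ Y) (m + i)).range) : D.pf t ∈ (c.cl Y i).range := by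
  subst hm
  obtain ⟨a, rfl⟩ := ht
  exact ⟨Z.push X Y i a, hc.push X Y i a⟩

theorem diag_mem {c : ClassMap Z D} (hc : c.IsCompatible) (X : V) (m : ℕ) (hm : m = Z.dim X) :
    D.diag X ∈ (c.cl (X ⊗ X) m).range := by
  subst hm
  exact ⟨Z.diag X, hc.diag X⟩

end RAT

section One

variable {V : Type u} [Category.{v} V] [CartesianMonoidalCategory V]
variable {K : Type x} [Field K]
variable (Z : CycleTheory.{u, v, y} V) (D : WeilCoh.{u, v, w, x} V K)

theorem p_RAT : S_RAT Z D := by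
  intro c hD hc
  refine ⟨⟨hD.pull.id, hD.pull.comp, hD.pull.deg⟩,
    ⟨hD.kunneth.dim, hD.kunneth.span, hD.kunneth.finrank, hD.kunneth.push⟩,
    ⟨hD.trace.deg, hD.trace.duality, hD.trace.cross, hD.trace.iso⟩,
    ⟨?_, ?_, ?_, ?_⟩, ⟨?_, ?_⟩, ⟨?_, hD.diagonal.spec⟩⟩
  · intro X i a ha
    obtain ⟨a', rfl⟩ := ha
    exact hD.cycle.deg X i _ ((hc.span X i _).2 (Submodule.subset_span ⟨a', rfl⟩))
  · intro X
    refine ⟨Z.push X X 0 (Z.diag X), ?_⟩
    have h1 := hc.push X X 0 (Z.diag X)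
    have h2 : c.cl (X ⊗ X) (Z.dim X + 0) (Z.diag X) = D.diag X := hc.diag X
    exact h1.trans ((congrArg D.pf h2).trans (RAT.pf_diag hD X))
  · intro X i j a ha b hb
    obtain ⟨a', rfl⟩ := ha
    obtain ⟨b', rfl⟩ := hb
    exact ⟨Z.mul a' b', hc.mul X i j a' b'⟩
  · intro X i q a ha
    obtain ⟨a', rfl⟩ := ha
    exact ⟨q • a', hc.smul X i q a'⟩
  · intro X Y f i a ha
    obtain ⟨a', rfl⟩ := ha
    exact ⟨Z.pull f a', hc.pull X Y f i a'⟩
  · intro X Y i t ht
    exact RAT.push_mem hc X Y i (D.dim X) (hc.dim X).symm t ht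
  · intro X
    exact RAT.diag_mem hc X (D.dim X) (hc.dim X).symm

end One

end Pool.Std
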