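import Pool.Agent.Work.MP_a60482_ind.Blocks

/-!
Block RPL (helper77): the polarization with rational coefficients satisfies the axioms.
-/

open CategoryTheory MonoidalCategory CartesianMonoidalCategory

universe u v w x b y

namespace Pool.Std

open Pool.KC (CycleTheory)

theorem p_RPL {V : Type u} [Category.{v} V] [CartesianMonoidalCategory V] {K : Type x} [Field K]
    (Z : CycleTheory.{u, v, y} V) (D : WeilCoh.{u, v, w, x} V K) :
    S_RPL.{u, v, w, x, b, y} Z D := by
  intro A c h
  exact
    { exists_bundle := h.exists_bundle
      chern_mem := fun X M => ⟨A.c M, rfl⟩
      chern_box := h.chern_box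
      dim_line := h.dim_line
      int_line := h.int_line
      span_line := h.span_line
      hard_inj := h.hard_inj
      hard_surj := h.hard_surj }

end Pool.Std
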