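import Pool.Agent.Work.MP_a60482_ind.Blocks

/-!
# RUP: rational coefficients imply `K`-coefficients
-/

set_option autoImplicit false

open CategoryTheory MonoidalCategory CartesianMonoidalCategory

universe u v w x b y

namespace Pool.Std

open Pool.KC (CycleTheory)

section

variable {V : Type u} [Category.{v} V] [CartesianMonoidalCategory V]
variable {K : Type x} [Field K]

theorem RUP_mem {Z : CycleTheory.{u, v, y} V} {D : WeilCoh.{u, v, w, x} V K} {c : ClassMap Z D}
    (hc : c.IsCompatible) {X : V} {i : ℕ} {z : D.H X} (hz : z ∈ (c.cl X i).range) :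
    z ∈ D.alg X i :=
  (hc.span X i z).2 (Submodule.subset_span (AddMonoidHom.mem_range.1 hz))

theorem p_RUP (Z : CycleTheory.{u, v, y} V) (D : WeilCoh.{u, v, w, x} V K) :
    S_RUP.{u, v, w, x, b, y} Z D := by
  intro A c hc X
  refine ⟨?_, ?_, ?_⟩
  · intro h i
    obtain ⟨z, hz, h1, h2⟩ := h i
    exact ⟨z, RUP_mem hc hz, h1, h2⟩
  · rintro ⟨z, hz, h1, h2⟩
    exact ⟨z, RUP_mem hc hz, h1, h2⟩
  · rintro M ⟨z, hz, h1⟩
    exact ⟨z, RUP_mem hc hz, h1⟩

end

end Pool.Std
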