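import Pool.Agent.Work.MP_a60482_ind.Blocks

/-!
Block THT: compositions of cycles on `X × X`.
-/

set_option autoImplicit false

open CategoryTheory MonoidalCategory CartesianMonoidalCategory

universe u v w x b y z

namespace Pool.Std

open Pool.KC (CycleTheory)

namespace THT

variable {V : Type u} [Category.{v} V] [CartesianMonoidalCategory V]
variable {Z : CycleTheory.{u, v, y} V} {K : Type x} [Field K] {D : WeilCoh.{u, v, w, x} V K}

theorem cl_deg {c : ClassMap Z D} (h : D.IsWeil) (hc : c.IsCompatible) {X : V} {i : ℕ}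
    (a : Z.Z X i) : c.cl X i a ∈ D.deg X (2 * i) :=
  h.cycle.deg X i _ ((hc.span X i _).2 (Submodule.subset_span ⟨a, rfl⟩))

theorem cl_comm {c : ClassMap Z D} (h : D.IsWeil) (hc : c.IsCompatible) {X : V} {i : ℕ}
    (a : Z.Z X i) (e : D.H X) : c.cl X i a * e = e * c.cl X i a :=
  (WeilCoh.toCoh h).even_comm (X := X) (i := i) (cl_deg h hc a) e

theorem cl_comp {c : ClassMap Z D} (h : D.IsWeil) (hc : c.IsCompatible) {X : V} {i : ℕ}
    (a : Z.Z (X ⊗ X) (Z.dim X)) (θ : Z.Z (X ⊗ X) i) (e : D.H X) :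
    D.act (c.cl _ _ (Z.push X (X ⊗ X) i
      (Z.mul (Z.pull (lift (fst X (X ⊗ X)) (snd X (X ⊗ X) ≫ snd X X)) a)
        (Z.pull (lift (snd X (X ⊗ X) ≫ fst X X) (fst X (X ⊗ X))) θ)))) e =
      D.act (c.cl _ _ a) (D.act (c.cl _ _ θ) e) := by
  rw [hc.push, hc.mul, cl_comm h hc, hc.pull, hc.pull]
  rw [← WeilCoh.act_eq h, ← WeilCoh.act_eq h, ← WeilCoh.act_eq h]
  have h1 := LinearMap.congr_fun ((WeilCoh.toWeil h).act_comp (X := X) (Y := X) (Z := X)
    (c.cl (X ⊗ X) i θ) (c.cl (X ⊗ X) (Z.dim X) a)) e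
  rw [LinearMap.comp_apply] at h1
  rw [← h1]
  congr 2
  exact (WeilCoh.push_eq h _).symm

theorem cl_pow {c : ClassMap Z D} (h : D.IsWeil) {X : V} (m : D.H X) (i : ℕ)
    (hm : m ∈ D.deg X (2 * i)) (z : D.H (X ⊗ X)) (k : ℕ) (e : D.H X) :
    D.act (D.pb (fst X X) m ^ k * z) e = D.act z (m ^ k * e) := by
  have hmk : m ^ k ∈ D.deg X (2 * (k * i)) := by
    have := SetLike.pow_mem_graded k hm
    rw [smul_eq_mul] at this
    rwa [show 2 * (k * i) = k * (2 * i) by ring]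
  have hcomm : m ^ k * e = e * m ^ k := (WeilCoh.toCoh h).even_comm (X := X) hmk e
  rw [hcomm, ← WeilCoh.act_eq h, ← WeilCoh.act_eq h]
  have h1 := (WeilCoh.toCoh h).act_fst_mul (X := X) (Y := X) (m ^ k) z e
  rw [← h1]
  congr 3
  exact (map_pow (D.pull (fst X X)) m k).symm

end THT

section

variable {V : Type u} [Category.{v} V] [CartesianMonoidalCategory V]
variable (Z : CycleTheory.{u, v, y} V) {ι : Type z} {K : ι → Type x}
    [∀ l, Field (K l)] [∀ l, CharZero (K l)] (D : ∀ l, WeilCoh.{u, v, w, x} V (K l))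

theorem THT.pow_cycle {c : ∀ l, ClassMap Z (D l)} (hD : ∀ l, (D l).IsWeil)
    (hc : ∀ l, (c l).IsCompatible) {X : V} (M : Z.Z X 1) {i : ℕ} (θ : Z.Z (X ⊗ X) i) (k : ℕ) :
    ∃ a : Z.Z (X ⊗ X) (i + k), ∀ l,
      (c l).cl _ _ a = (D l).pb (fst X X) ((c l).cl X 1 M) ^ k * (c l).cl _ _ θ := by
  induction k with
  | zero => exact ⟨θ, fun l => by rw [pow_zero, one_mul]; rfl⟩
  | succ k ih =>
    obtain ⟨a, ha⟩ := ih
    refine ⟨(Z.mul (i := i + k) (j := 1) a (Z.pull (fst X X) M) : Z.Z (X ⊗ X) (i + k + 1)), fun l => ?_⟩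
    have h1 := (hc l).mul _ _ _ a (Z.pull (fst X X) M)
    have h2 := THT.cl_comm (hD l) (hc l) (Z.pull (fst X X) M) ((c l).cl _ _ a)
    rw [(hc l).pull] at h1 h2
    refine h1.trans ?_
    rw [← h2, ha l, pow_succ', mul_assoc]

theorem p_THT (hCNV : ∀ l, S_CNV Z (D l)) : S_THT Z D := by
  intro c hD hc X M i k hik
  refine ⟨fun θ => ?_, fun a θ => ?_⟩
  · obtain ⟨a, ha⟩ := THT.pow_cycle Z D hD hc M θ k
    have key : ∀ m, i + k = m → ∃ a' : Z.Z (X ⊗ X) m, ∀ l, ∀ e : (D l).H X,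
        (D l).act ((c l).cl _ _ a') e =
          (D l).act ((c l).cl _ _ θ) ((c l).cl X 1 M ^ k * e) := by
      rintro m rfl
      refine ⟨a, fun l e => ?_⟩
      rw [ha l]
      exact THT.cl_pow (c := c l) (hD l) _ 1 (THT.cl_deg (hD l) (hc l) M) _ k e
    exact key _ hik
  · exact ⟨_, fun l e => THT.cl_comp (hD l) (hc l) a θ e⟩

end

end Pool.Std
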