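import Pool.Agent.Work.MP_a60482_ind.Blocks

/-!
# Block THT (second copy)
-/

open CategoryTheory MonoidalCategory CartesianMonoidalCategory

universe u v w x b y z

namespace Pool.Std

open Pool.KC (CycleTheory)

variable {V : Type u} [Category.{v} V] [CartesianMonoidalCategory V]

namespace THTx

section

variable {Z : CycleTheory.{u, v, y} V} {ι : Type z} {K : ι → Type x}
    [∀ l, Field (K l)] {D : ∀ l, WeilCoh.{u, v, w, x} V (K l)}

theorem cast_cl (c : ∀ l, ClassMap Z (D l)) {X : V} {i j : ℕ} (h : i = j) (a : Z.Z X i) :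
    ∃ b : Z.Z X j, ∀ l, (c l).cl X j b = (c l).cl X i a := by
  subst h
  exact ⟨a, fun _ => rfl⟩

theorem exists_one (c : ∀ l, ClassMap Z (D l)) (hD : ∀ l, (D l).IsWeil)
    (hc : ∀ l, (c l).IsCompatible) (X : V) : ∃ m : Z.Z X 0, ∀ l, (c l).cl X 0 m = 1 := by
  refine ⟨Z.push X X 0 (Z.diag X), fun l => ?_⟩
  have h1 := (hc l).push X X 0 (Z.diag X)
  rw [h1]
  change (D l).pf ((c l).cl (X ⊗ X) (Z.dim X) (Z.diag X)) = 1
  rw [(hc l).diag]
  have h2 := WeilCoh.act_eq (hD l) (X := X) (Y := X) ((D l).diag X) 1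
  have h3 := (WeilCoh.toWeil (hD l)).act_diag X
  have h4 : (WeilCoh.toWeil (hD l)).act ((D l).diag X) 1 = 1 := by
    have := LinearMap.congr_fun h3 1
    exact this
  rw [h4] at h2
  unfold WeilCoh.act at h2
  have h5 : (D l).pb (fst X X) 1 * (D l).diag X = (D l).diag X := by
    have : (D l).pb (fst X X) 1 = 1 := map_one ((D l).pull (fst X X))
    rw [this, one_mul]
  rw [h5] at h2
  exact h2.symm

theorem exists_pow (c : ∀ l, ClassMap Z (D l)) (hD : ∀ l, (D l).IsWeil)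
    (hc : ∀ l, (c l).IsCompatible) (X : V) (M : Z.Z X 1) (k : ℕ) :
    ∃ m : Z.Z X k, ∀ l, (c l).cl X k m = (c l).cl X 1 M ^ k := by
  induction k with
  | zero =>
    obtain ⟨m, hm⟩ := exists_one c hD hc X
    exact ⟨m, fun l => by rw [hm l, pow_zero]⟩
  | succ k ih =>
    obtain ⟨m, hm⟩ := ih
    exact ⟨Z.mul m M, fun l => by rw [(hc l).mul, hm l, pow_succ]⟩

end

end THTx

variable (Z : CycleTheory.{u, v, y} V) {ι : Type z} {K : ι → Type x}
    [∀ l, Field (K l)] [∀ l, CharZero (K l)] (D : ∀ l, WeilCoh.{u, v, w, x} V (K l))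

theorem p_THTx : S_THT Z D := by
  intro c hD hc X M i k hik
  constructor
  · intro θ
    obtain ⟨m, hm⟩ := THTx.exists_pow c hD hc X M k
    obtain ⟨a, ha⟩ := THTx.cast_cl c (show k + i = Z.dim X by omega)
      (Z.mul (Z.pull (fst X X) m) θ)
    refine ⟨a, fun l e => ?_⟩
    rw [ha l, (hc l).mul, (hc l).pull, hm l, ← WeilCoh.act_eq (hD l), ← WeilCoh.act_eq (hD l)]
    have h1 := (WeilCoh.toWeil (hD l)).act_fst_mul (X := X) (Y := X) ((c l).cl X 1 M ^ k)
      ((c l).cl (X ⊗ X) i θ) e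
    have h2 : ((c l).cl X 1 M ^ k : (D l).H X) ∈ (D l).deg X (2 * k) := by
      rw [← hm l]
      have h3 : (c l).cl X k m ∈ Submodule.span (K l) (Set.range ((c l).cl X k)) :=
        Submodule.subset_span ⟨m, rfl⟩
      exact (hD l).cycle.deg X k _ (((hc l).span X k _).mpr h3)
    have h4 := (WeilCoh.toWeil (hD l)).even_comm (X := X) (i := k) h2 e
    refine h1.trans ?_
    congr 1
    exact h4.symm
  · intro a θ
    obtain ⟨t, ht⟩ := THTx.cast_cl c (show i + Z.dim X = Z.dim X + i by omega)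
      (Z.mul (Z.pull (lift (snd X (X ⊗ X) ≫ fst X X) (fst X (X ⊗ X))) θ)
        (Z.pull (lift (fst X (X ⊗ X)) (snd X (X ⊗ X) ≫ snd X X)) a))
    refine ⟨Z.push X (X ⊗ X) i t, fun l e => ?_⟩
    rw [(hc l).push, ht l, (hc l).mul, (hc l).pull, (hc l).pull]
    rw [← WeilCoh.act_eq (hD l), ← WeilCoh.act_eq (hD l), ← WeilCoh.act_eq (hD l)]
    have h1 := LinearMap.congr_fun ((WeilCoh.toWeil (hD l)).act_comp (X := X) (Y := X) (Z := X)
      ((c l).cl (X ⊗ X) i θ) ((c l).cl (X ⊗ X) (Z.dim X) a)) e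
    rw [LinearMap.comp_apply] at h1
    rw [← h1]
    congr 2
    exact (WeilCoh.push_eq (hD l) _).symm

end Pool.Std
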