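import Pool.Agent.Work.MP_a60482_ind.Api
import Pool.Agent.Work.MP_a60482_kc.Fam
import Pool.Agent.Work.MP_a60482_dg.Final
import Pool.Agent.Work.MP_a60482_pf.Final

/-!
Block statements.
-/

open CategoryTheory MonoidalCategory CartesianMonoidalCategory

universe u v w x b y z

namespace Pool.Std

open Pool.KC (CycleTheory)

section One

variable {V : Type u} [Category.{v} V] [CartesianMonoidalCategory V]
variable {K : Type x} [Field K]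

/-- RAT -/
def S_RAT (Z : CycleTheory.{u, v, y} V) (D : WeilCoh.{u, v, w, x} V K) : Prop :=
  ∀ c : ClassMap Z D, D.IsWeil → c.IsCompatible → c.rat.IsWeil

/-- RPL -/
def S_RPL (Z : CycleTheory.{u, v, y} V) (D : WeilCoh.{u, v, w, x} V K) : Prop :=
  ∀ (A : Ample.{u, v, b, y} Z) (c : ClassMap Z D), (A.pol c).IsPolarized → (A.rat c).IsPolarized

/-- RUP: rational coefficients imply `K`-coefficients -/
def S_RUP (Z : CycleTheory.{u, v, y} V) (D : WeilCoh.{u, v, w, x} V K) : Prop :=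
  ∀ (A : Ample.{u, v, b, y} Z) (c : ClassMap Z D), c.IsCompatible → ∀ X : V,
    (c.rat.ConjC X → D.ConjC X) ∧ (c.rat.SignConj X → D.SignConj X) ∧
      ∀ M : A.Bund X, (A.rat c).ConjB M → (A.pol c).ConjB M

/-- CNV -/
def S_CNV (Z : CycleTheory.{u, v, y} V) (D : WeilCoh.{u, v, w, x} V K) : Prop :=
  ∀ (c : ClassMap Z D) (h : D.IsWeil), c.IsCompatible →
    ∃ k : Pool.KC.CycleClass Z (WeilCoh.toWeil h), (∀ X i a, k.cl X i a = c.cl X i a) ∧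
      ∀ (X : V) (i : ℕ) (t : D.H (X ⊗ X)),
        (WeilCoh.toWeil h).traceOn (X := X) i t = D.traceOn i t

end One

section LinAlg

/-- LAB -/
def S_LAB : Prop :=
  ∀ {ι : Type z} {K : ι → Type x} [∀ l, Field (K l)] [∀ l, CharZero (K l)] {H : ι → Type w}
    [∀ l, AddCommGroup (H l)] [∀ l, Module (K l) (H l)] [∀ l, FiniteDimensional (K l) (H l)]
    (p : ∀ l, Module.End (K l) (H l)), (∀ l, p l * p l = p l) →
    ∀ R : Subring (∀ l, Module.End (K l) (H l)), (∀ r ∈ R, ∀ l, r l * p l = p l * r l) →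
    (∀ r ∈ R, ∃ q : ℚ, ∀ l, LinearMap.trace (K l) (H l) (r l * p l) = (q : K l)) →
    ∀ Θ : AddSubgroup (∀ l, Module.End (K l) (H l)),
    (∀ (q : ℚ), ∀ t ∈ Θ, (fun l => (q : K l) • t l) ∈ Θ) → (∀ t ∈ Θ, t ∈ R) →
    (∀ r ∈ R, ∀ t ∈ Θ, r * t ∈ Θ) → ∀ d : ℕ, (∀ l, Module.finrank (K l) (H l) ≤ d) →
    ∀ o : ι, (∃ s ∈ Submodule.span (K o) {s | ∃ t ∈ Θ, t o = s}, s * p o = p o) →
    ∃ t ∈ Θ, ∀ l, t l * p l = p l

end LinAlg

section Family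

variable {V : Type u} [Category.{v} V] [CartesianMonoidalCategory V]

variable (Z : CycleTheory.{u, v, y} V) {ι : Type z} {K : ι → Type x}
    [∀ l, Field (K l)] [∀ l, CharZero (K l)] (D : ∀ l, WeilCoh.{u, v, w, x} V (K l))

/-- PRJ -/
def S_PRJ : Prop :=
  ∀ (c : ∀ l, ClassMap Z (D l)), (∀ l, (D l).IsWeil) → (∀ l, (c l).IsCompatible) →
    ∀ X : V, TracesAgree c X → ∀ (S : Set ℕ) (o : ι),
    (∃ t ∈ (D o).alg (X ⊗ X) ((D o).dim X), (D o).IsProj S t) →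
    ∃ a : Z.Z (X ⊗ X) (Z.dim X), ∀ l, (D l).IsProj S ((c l).cl _ _ a)

/-- DIM -/
def S_DIM : Prop :=
  ∀ (c : ∀ l, ClassMap Z (D l)), (∀ l, (D l).IsWeil) → (∀ l, (c l).IsCompatible) →
    ∀ X : V, TracesAgree c X → ∃ d : ℕ, ∀ l, Module.finrank (K l) ((D l).H X) ≤ d

/-- THT -/
def S_THT : Prop :=
  ∀ (c : ∀ l, ClassMap Z (D l)), (∀ l, (D l).IsWeil) → (∀ l, (c l).IsCompatible) →
    ∀ (X : V) (M : Z.Z X 1) (i k : ℕ), i + k = Z.dim X →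
    (∀ θ : Z.Z (X ⊗ X) i, ∃ a : Z.Z (X ⊗ X) (Z.dim X), ∀ l, ∀ e : (D l).H X,
      (D l).act ((c l).cl _ _ a) e = (D l).act ((c l).cl _ _ θ) ((c l).cl X 1 M ^ k * e)) ∧
    ∀ (a : Z.Z (X ⊗ X) (Z.dim X)) (θ : Z.Z (X ⊗ X) i), ∃ θ' : Z.Z (X ⊗ X) i,
      ∀ l, ∀ e : (D l).H X, (D l).act ((c l).cl _ _ θ') e =
        (D l).act ((c l).cl _ _ a) ((D l).act ((c l).cl _ _ θ) e)

/-- BIN -/
def S_BIN : Prop :=
  ∀ (c : ∀ l, ClassMap Z (D l)), (∀ l, (D l).IsWeil) → (∀ l, (c l).IsCompatible) →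
    ∀ (A : Ample.{u, v, b, y} Z) (X : V), TracesAgree c X → ∀ i ≤ Z.dim X,
    ∀ (M : A.Bund X) (o : ι), (A.pol (c o)).LefschetzIn i M →
    ∃ θ : Z.Z (X ⊗ X) i, ∀ l, ∀ e ∈ (D l).deg X i,
      (D l).act ((c l).cl _ _ θ) ((c l).cl X 1 (A.c M) ^ (Z.dim X - i) * e) = e

/-- BAL -/
def S_BAL : Prop :=
  ∀ (c : ∀ l, ClassMap Z (D l)), (∀ l, (D l).IsWeil) → (∀ l, (c l).IsCompatible) →
    ∀ A : Ample.{u, v, b, y} Z, (∀ l, (A.pol (c l)).IsPolarized) →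
    ∀ X : V, TracesAgree c X → ∀ (M : A.Bund X) (o : ι), (A.pol (c o)).ConjB M →
    ∀ l, (A.rat (c l)).ConjB M

/-- the theorem -/
def S_FIN : Prop :=
  ∀ (c : ∀ l, ClassMap Z (D l)), (∀ l, (D l).IsWeil) → (∀ l, (c l).IsCompatible) →
    ∀ A : Ample.{u, v, b, y} Z, (∀ l, (A.pol (c l)).IsPolarized) →
    ((∀ X : V, TracesAgree c X → ∀ o : ι,
      (∀ S : Set ℕ, (∃ t ∈ (D o).alg (X ⊗ X) ((D o).dim X), (D o).IsProj S t) →
        ∃ a : Z.Z (X ⊗ X) (Z.dim X), ∀ l, (D l).IsProj S ((c l).cl _ _ a)) ∧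
      ∀ M : A.Bund X, (∀ i ≤ Z.dim X, (A.pol (c o)).LefschetzIn i M →
        ∃ θ : Z.Z (X ⊗ X) i, ∀ l, ∀ e ∈ (D l).deg X i,
          (D l).act ((c l).cl _ _ θ) ((c l).cl X 1 (A.c M) ^ (Z.dim X - i) * e) = e) ∧
        ((A.pol (c o)).ConjB M → ∀ l, (A.rat (c l)).ConjB M)) ∧
    ((∀ l, (D l).Connected) → (∀ l, (A.pol (c l)).HasHypersurfaces) →
      (∀ l, (A.pol (c l)).HasSections) → ∀ P : V → Prop, (∀ l, (A.pol (c l)).GeneratedBy P) →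
      (∀ l, (A.pol (c l)).Closed P) →
      (∀ l, [∀ X : V, (D l).ConjC X,
        ∀ X : V, (D l).SignConj X,
        ∀ (X : V) (M : A.Bund X), (A.pol (c l)).ConjB M,
        ∀ (X : V) (M : A.Bund X), P X → (A.pol (c l)).ConjB M,
        ∀ n ≥ 1, ∀ U : V, P U → (D l).dim U = 2 * n →
          (D l).rank U (n - 1) = (D l).rank U (n + 1),
        ∀ X : V, P X → (D l).ConjC X ∧ (1 ≤ (D l).dim X →
          (D l).rank (X ⊗ X) ((D l).dim X - 1) = (D l).rank (X ⊗ X) ((D l).dim X + 1))].TFAE) ∧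
      ((∀ X : V, TracesAgree c X) → (∃ l, ∀ X : V, (D l).SignConj X) →
        ∀ l, (∀ X : V, (c l).rat.ConjC X) ∧ ∀ (X : V) (M : A.Bund X), (A.rat (c l)).ConjB M)))

end Family

end Pool.Std
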