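import Pool.Agent.Work.MP_a60482_ind.Blocks
import Pool.Agent.Work.StdConj01.Final
import Pool.Agent.Work.MP_a60482_pf.Final

/-!
The final form: one cohomology theory and all of them.
-/

open CategoryTheory MonoidalCategory CartesianMonoidalCategory

universe u v w x b y z

namespace Pool.Std

open Pool.KC (CycleTheory)

variable {V : Type u} [Category.{v} V] [CartesianMonoidalCategory V]

theorem ClassMap.IsCompatible.coeffs {Z : CycleTheory.{u, v, y} V} {K : Type x} [Field K]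
    {D : WeilCoh.{u, v, w, x} V K} {c : ClassMap Z D} (g : c.IsCompatible) :
    D.CoefficientsIn K where
  smul := by
    intro X i q a ha
    rw [g.span] at ha ⊢
    exact Submodule.smul_mem _ _ ha
  degree := fun X a _ => ⟨D.int a, rfl⟩

theorem Polarization.conjB_dim_zero {K : Type x} [Field K] {D : WeilCoh.{u, v, w, x} V K}
    (G : Polarization.{u, v, w, x, b} D) {X : V} (M : G.Bund X) (hX : D.dim X = 0) :
    G.ConjB M := by
  refine ⟨0, zero_mem _, ?_⟩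
  intro i y hy
  refine ⟨?_, fun j hj => by omega⟩
  show D.push X X (D.pb (fst X X) y * 0) = 0
  rw [mul_zero, map_zero]

/-- LAM -/
def S_LAM (Z : CycleTheory.{u, v, y} V) {ι : Type z} {K : ι → Type x}
    [∀ l, Field (K l)] (D : ∀ l, WeilCoh.{u, v, w, x} V (K l)) : Prop :=
  ∀ (c : ∀ l, ClassMap Z (D l)), (∀ l, (D l).IsWeil) → (∀ l, (c l).IsCompatible) →
    ∀ A : Ample.{u, v, b, y} Z, (∀ l, (A.pol (c l)).IsPolarized) →
    ∀ X : V, TracesAgree c X → ∀ (M : A.Bund X) (o : ι), (A.pol (c o)).ConjB M →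
    ∃ a : Z.Z (X ⊗ X) (Z.dim X - 1), ∀ l,
      (A.pol (c l)).IsLambda M ((D l).act ((c l).cl _ _ a))

theorem final_form (Z : CycleTheory.{u, v, y} V) {ι : Type z} {K : ι → Type x}
    [∀ l, Field (K l)] [∀ l, CharZero (K l)] (D : ∀ l, WeilCoh.{u, v, w, x} V (K l))
    (hPRJ : S_PRJ.{u, v, w, x, y, z} Z D) (hBIN : S_BIN.{u, v, w, x, b, y, z} Z D)
    (hLAM : S_LAM.{u, v, w, x, b, y, z} Z D)
    (c : ∀ l, ClassMap Z (D l)) (h : ∀ l, (D l).IsWeil)
    (g : ∀ l, (c l).IsCompatible) (A : Ample.{u, v, b, y} Z)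
    (hP : ∀ l, (A.pol (c l)).IsPolarized) :
    (∀ X : V, TracesAgree c X → ∀ o : ι,
      (∀ S : Set ℕ, (∃ t ∈ (D o).alg (X ⊗ X) ((D o).dim X), (D o).IsProj S t) →
        ∃ a : Z.Z (X ⊗ X) (Z.dim X), ∀ l, (D l).IsProj S ((c l).cl _ _ a)) ∧
      ∀ M : A.Bund X, (∀ i ≤ Z.dim X, (A.pol (c o)).LefschetzIn i M →
        ∃ a : Z.Z (X ⊗ X) i, ∀ l, ∀ e ∈ (D l).deg X i,
          (D l).act ((c l).cl _ _ a) ((c l).cl X 1 (A.c M) ^ (Z.dim X - i) * e) = e) ∧
        ((A.pol (c o)).ConjB M → ∃ a : Z.Z (X ⊗ X) (Z.dim X - 1), ∀ l,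
          (A.pol (c l)).IsLambda M ((D l).act ((c l).cl _ _ a)))) ∧
    ((∀ l, (D l).Connected) → (∀ l, (A.pol (c l)).HasHypersurfaces) →
      (∀ l, (A.pol (c l)).HasSections) → ∀ P : V → Prop, (∀ l, (A.pol (c l)).GeneratedBy P) →
      (∀ l, (A.pol (c l)).Closed P) →
      (∀ l, [∀ X : V, (D l).ConjC X,
        ∀ X : V, (D l).SignConj X,
        ∀ (X : V) (M : A.Bund X), (A.pol (c l)).ConjB M,
        ∀ (X : V) (M : A.Bund X), P X → (A.pol (c l)).ConjB M,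
        ∀ n ≥ 1, ∀ U : V, P U → (D l).dim U = 2 * n →
          (D l).rank U (n - 1) = (D l).rank U (n + 1),
        ∀ X : V, P X → (D l).ConjC X ∧ (1 ≤ (D l).dim X →
          (D l).rank (X ⊗ X) ((D l).dim X - 1) = (D l).rank (X ⊗ X) ((D l).dim X + 1)),
        ∀ (X : V) (M : A.Bund X) (Y : V) (i : Y ⟶ X ⊗ X), P X →
          (A.pol (c l)).VeryGeneral ((A.pol (c l)).box M M) i → (D l).ConjC Y].TFAE) ∧
      ((∀ X : V, TracesAgree c X) → (∃ l, ∀ X : V, (D l).SignConj X) →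
        ∀ X : V, (∀ i : ℕ, ∃ a : Z.Z (X ⊗ X) (Z.dim X), ∀ l,
            (D l).IsProj {i} ((c l).cl _ _ a)) ∧
          ∀ M : A.Bund X, ∃ a : Z.Z (X ⊗ X) (Z.dim X - 1), ∀ l,
            (A.pol (c l)).IsLambda M ((D l).act ((c l).cl _ _ a)))) := by
  refine ⟨fun X hX o => ⟨fun S hS => hPRJ c h g X hX S o hS, fun M =>
    ⟨fun i hi hL => hBIN c h g A X hX i hi M o hL, fun hB => hLAM c h g A hP X hX M o hB⟩⟩, ?_⟩
  intro hc hH hS P hgen hcl
  have T := fun l => Polarization.tfae_prime (h l) (g l).coeffs (hc l) (hP l) (hH l) (hS l)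
    (hgen l) (hcl l)
  refine ⟨fun l => ?_, ?_⟩
  · tfae_have 1 ↔ 2 := (T l).out 0 1
    tfae_have 1 ↔ 3 := (T l).out 0 2
    tfae_have 1 ↔ 4 := (T l).out 0 3
    tfae_have 1 ↔ 5 := (T l).out 0 4
    tfae_have 1 ↔ 6 := (T l).out 0 5
    tfae_have 1 → 7 := fun hC X M Y i _ _ => hC Y
    tfae_have 7 → 4 := by
      intro h7 X M hX
      rcases Nat.eq_zero_or_pos ((D l).dim X) with h0 | h0
      · exact Polarization.conjB_dim_zero (A.pol (c l)) M h0
      · obtain ⟨Y, i, hY⟩ := hS l (X ⊗ X) ((A.pol (c l)).box M M) ((D l).dim X) h0 (by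
          rw [(h l).kunneth.dim, two_mul])
        exact (Polarization.conjB_iff_conjC (h l) (g l).coeffs (hc l) (hP l) M hY).mpr
          (h7 X M Y i hX hY)
    tfae_finish
  · rintro hT ⟨o, ho⟩ X
    have hC : ∀ X : V, (D o).ConjC X := ((T o).out 1 0).mp ho
    have hB : ∀ (X : V) (M : A.Bund X), (A.pol (c o)).ConjB M := ((T o).out 1 2).mp ho
    refine ⟨fun i => hPRJ c h g X (hT X) {i} o ?_, fun M => hLAM c h g A hP X (hT X) M o (hB X M)⟩
    obtain ⟨t, ht, h1, h2⟩ := hC X i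
    refine ⟨t, ht, fun j e he => ⟨fun hj => ?_, fun hj => ?_⟩⟩
    · rw [Set.mem_singleton_iff] at hj
      subst hj
      exact h1 e he
    · exact h2 j (fun hji => hj (Set.mem_singleton_iff.mpr hji)) e he

end Pool.Std
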