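import Pool.Agent.Work.MP_a60482_ind.Blocks
import Pool.Agent.Work.StdConj01.Final

/-!
Very general sections of squares, and the final form.
-/

open CategoryTheory MonoidalCategory CartesianMonoidalCategory

universe u v w x b y z

namespace Pool.Std

open Pool.KC (CycleTheory)

variable {V : Type u} [Category.{v} V] [CartesianMonoidalCategory V]

theorem ClassMap.IsCompatible.coeff {Z : CycleTheory.{u, v, y} V} {K : Type x} [Field K]
    {D : WeilCoh.{u, v, w, x} V K} {c : ClassMap Z D} (g : c.IsCompatible) :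
    D.CoefficientsIn K where
  smul := by
    intro X i q a ha
    rw [g.span] at ha ⊢
    exact Submodule.smul_mem _ _ ha
  degree := fun X a _ => ⟨D.int a, rfl⟩

theorem Polarization.conjB_zero {K : Type x} [Field K] {D : WeilCoh.{u, v, w, x} V K}
    (G : Polarization.{u, v, w, x, b} D) {X : V} (M : G.Bund X) (hX : D.dim X = 0) :
    G.ConjB M := by
  refine ⟨0, zero_mem _, ?_⟩
  intro i y hy
  refine ⟨?_, fun j hj => by omega⟩
  show D.push X X (D.pb (fst X X) y * 0) = 0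
  rw [mul_zero, map_zero]

theorem seven (Z : CycleTheory.{u, v, y} V) {ι : Type z} {K : ι → Type x}
    [∀ l, Field (K l)] [∀ l, CharZero (K l)] (D : ∀ l, WeilCoh.{u, v, w, x} V (K l))
    (hF : S_FIN.{u, v, w, x, b, y, z} Z D) (c : ∀ l, ClassMap Z (D l)) (h : ∀ l, (D l).IsWeil)
    (g : ∀ l, (c l).IsCompatible) (A : Ample.{u, v, b, y} Z)
    (hP : ∀ l, (A.pol (c l)).IsPolarized) :
    (∀ X : V, TracesAgree c X → ∀ o : ι,
      (∀ S : Set ℕ, (∃ t ∈ (D o).alg (X ⊗ X) ((D o).dim X), (D o).IsProj S t) →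
        ∃ a : Z.Z (X ⊗ X) (Z.dim X), ∀ l, (D l).IsProj S ((c l).cl _ _ a)) ∧
      ∀ M : A.Bund X, (∀ i ≤ Z.dim X, (A.pol (c o)).LefschetzIn i M →
        ∃ θ : Z.Z (X ⊗ X) i, ∀ l, ∀ e ∈ (D l).deg X i,
          (D l).act ((c l).cl _ _ θ) ((c l).cl X 1 (A.c M) ^ (Z.dim X - i) * e) = e) ∧
        ((A.pol (c o)).ConjB M → ∀ l, (A.rat (c l)).ConjB M)) ∧
    ((∀ l, (D l).Connected) → (∀ l, (A.pol (c l)).HasHypersurfaces) →
      (∀ l, (A.pol (c l)).HasSections) → ∀ P : V → Prop, (∀ l, (A.pol (c l)).GeneratedBy P) →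
      (∀ l, (A.pol (c l)).Closed P) →
      (∀ l, [∀ X : V, (D l).ConjC X,
        ∀ X : V, (D l).SignConj X,
        ∀ (X : V) (M : A.Bund X), (A.pol (c l)).ConjB M,
        ∀ (X : V) (M : A.Bund X), P X → (A.pol (c l)).ConjB M,
        ∀ n ≥ 1, ∀ U : V, P U → (D l).dim U = 2 * n →
          (D l).rank U (n - 1) = (D l).rank U (n + 1),
        ∀ X : V, P X → (D l).ConjC X ∧ (1 ≤ (D l).dim X →
          (D l).rank (X ⊗ X) ((D l).dim X - 1) = (D l).rank (X ⊗ X) ((D l).dim X + 1)),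
        ∀ (X : V) (M : A.Bund X) (Y : V) (i : Y ⟶ X ⊗ X), P X →
          (A.pol (c l)).VeryGeneral ((A.pol (c l)).box M M) i → (D l).ConjC Y].TFAE) ∧
      ((∀ X : V, TracesAgree c X) → (∃ l, ∀ X : V, (D l).SignConj X) →
        ∀ l, (∀ X : V, (c l).rat.ConjC X) ∧
          ∀ (X : V) (M : A.Bund X), (A.rat (c l)).ConjB M)) := by
  obtain ⟨h1, h2⟩ := hF c h g A hP
  refine ⟨h1, fun hc hH hS P hgen hcl => ⟨fun l => ?_, (h2 hc hH hS P hgen hcl).2⟩⟩
  have T := (h2 hc hH hS P hgen hcl).1 l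
  tfae_have 1 ↔ 2 := T.out 0 1
  tfae_have 1 ↔ 3 := T.out 0 2
  tfae_have 1 ↔ 4 := T.out 0 3
  tfae_have 1 ↔ 5 := T.out 0 4
  tfae_have 1 ↔ 6 := T.out 0 5
  tfae_have 1 → 7 := fun hC X M Y i _ _ => hC Y
  tfae_have 7 → 4 := by
    intro h7 X M hX
    rcases Nat.eq_zero_or_pos ((D l).dim X) with h0 | h0
    · exact Polarization.conjB_zero (A.pol (c l)) M h0
    · obtain ⟨Y, i, hY⟩ := hS l (X ⊗ X) ((A.pol (c l)).box M M) ((D l).dim X) h0 (by
        rw [(h l).kunneth.dim, two_mul])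
      exact (Polarization.conjB_iff_conjC (h l) (g l).coeff (hc l) (hP l) M hY).mpr
        (h7 X M Y i hX hY)
  tfae_finish

end Pool.Std
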