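import Pool.Agent.Work.MP_a60482_ind.Final
import Pool.Agent.Work.MP_a60482_ind.B_PRJ42
import Pool.Agent.Work.MP_a60482_ind.B_BIN42
import Pool.Agent.Work.MP_a60482_ind.B_LAM42

/-!
# Named conditions for the statement

For one theory `D` with polarization `G` and a class `P` of varieties: `RanksOn`,
`SquareRanksOn`, `SectionsOn`, `SevenEquivalent`.

For a family of theories over one theory of cycles: `ProjForAll`, `InvForAll`, `LambdaForAll`:
one rational cycle gives, for all `l`, the projector of `H_l(X)` onto the degrees in `S`, the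
inverse of the Lefschetz isomorphism on `H_l^i(X)`, the operator `Λ` of `H_l(X)`.
-/

open CategoryTheory MonoidalCategory CartesianMonoidalCategory

universe u v w x b y z

namespace Pool.Std

open Pool.KC (CycleTheory)

section One

variable {V : Type u} [Category.{v} V] [CartesianMonoidalCategory V] {K : Type x} [Field K]

/-- the projector of `H(X)` onto the sum of the `H^i(X)`, `i ∈ S`, is algebraic -/
def WeilCoh.ProjAlg (D : WeilCoh.{u, v, w, x} V K) (S : Set ℕ) (X : V) : Prop :=
  ∃ t ∈ D.alg (X ⊗ X) (D.dim X), D.IsProj S t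

/-- for every `U` in `P` of dimension `2 n ≥ 2`, the spaces of algebraic classes of codimension
`n - 1` and `n + 1` on `U` have the same dimension -/
def WeilCoh.RanksOn (D : WeilCoh.{u, v, w, x} V K) (P : V → Prop) : Prop :=
  ∀ n ≥ 1, ∀ U : V, P U → D.dim U = 2 * n → D.rank U (n - 1) = D.rank U (n + 1)

/-- for every `X` in `P`, of dimension `n`: `C(X)` holds and, if `n ≥ 1`, the spaces of algebraic
classes of codimension `n - 1` and `n + 1` on `X × X` have the same dimension -/
def WeilCoh.SquareRanksOn (D : WeilCoh.{u, v, w, x} V K) (P : V → Prop) : Prop :=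
  ∀ X : V, P X → D.ConjC X ∧
    (1 ≤ D.dim X → D.rank (X ⊗ X) (D.dim X - 1) = D.rank (X ⊗ X) (D.dim X + 1))

/-- `C(Y)` holds for the very general hypersurface sections `Y` of `X × X`, for `X` in `P` -/
def Polarization.SectionsOn {D : WeilCoh.{u, v, w, x} V K} (G : Polarization.{u, v, w, x, b} D)
    (P : V → Prop) : Prop :=
  ∀ (X : V) (M : G.Bund X) (Y : V) (i : Y ⟶ X ⊗ X), P X → G.VeryGeneral (G.box M M) i →
    D.ConjC Y

/-- the seven statements are equivalent -/
def Polarization.SevenEquivalent {D : WeilCoh.{u, v, w, x} V K}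
    (G : Polarization.{u, v, w, x, b} D) (P : V → Prop) : Prop :=
  [∀ X : V, D.ConjC X,
    ∀ X : V, D.SignConj X,
    ∀ (X : V) (M : G.Bund X), G.ConjB M,
    ∀ (X : V) (M : G.Bund X), P X → G.ConjB M,
    D.RanksOn P,
    D.SquareRanksOn P,
    G.SectionsOn P].TFAE

end One

section Family

variable {V : Type u} [Category.{v} V] [CartesianMonoidalCategory V]
  {Z : CycleTheory.{u, v, y} V} {ι : Type z} {K : ι → Type x}
  [∀ l, Field (K l)] {D : ∀ l, WeilCoh.{u, v, w, x} V (K l)}

/-- one rational cycle gives the projectors onto the degrees in `S` for all `l` -/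
def ProjForAll (c : ∀ l, ClassMap Z (D l)) (S : Set ℕ) (X : V) : Prop :=
  ∃ a : Z.Z (X ⊗ X) (Z.dim X), ∀ l, (D l).IsProj S ((c l).cl _ _ a)

/-- one rational cycle gives the inverses of the Lefschetz isomorphisms on `H_l^i(X)` for
all `l` -/
def InvForAll (c : ∀ l, ClassMap Z (D l)) (A : Ample.{u, v, b, y} Z) (i : ℕ) {X : V}
    (M : A.Bund X) : Prop :=
  ∃ a : Z.Z (X ⊗ X) i, ∀ l, ∀ e ∈ (D l).deg X i,
    (D l).act ((c l).cl _ _ a) ((c l).cl X 1 (A.c M) ^ (Z.dim X - i) * e) = e

/-- one rational cycle gives the operators `Λ` for all `l` -/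
def LambdaForAll (c : ∀ l, ClassMap Z (D l)) (A : Ample.{u, v, b, y} Z) {X : V}
    (M : A.Bund X) : Prop :=
  ∃ a : Z.Z (X ⊗ X) (Z.dim X - 1), ∀ l,
    (A.pol (c l)).IsLambda M ((D l).act ((c l).cl _ _ a))

theorem final_named [∀ l, CharZero (K l)] (c : ∀ l, ClassMap Z (D l))
    (h : ∀ l, (D l).IsWeil) (g : ∀ l, (c l).IsCompatible) (A : Ample.{u, v, b, y} Z)
    (hP : ∀ l, (A.pol (c l)).IsPolarized) :
    (∀ X : V, TracesAgree c X → ∀ o : ι,
      (∀ S : Set ℕ, (D o).ProjAlg S X → ProjForAll c S X) ∧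
      ∀ M : A.Bund X,
        (∀ i ≤ Z.dim X, (A.pol (c o)).LefschetzIn i M → InvForAll c A i M) ∧
        ((A.pol (c o)).ConjB M → LambdaForAll c A M)) ∧
    ((∀ l, (D l).Connected) → (∀ l, (A.pol (c l)).HasHypersurfaces) →
      (∀ l, (A.pol (c l)).HasSections) → ∀ P : V → Prop, (∀ l, (A.pol (c l)).GeneratedBy P) →
      (∀ l, (A.pol (c l)).Closed P) →
      (∀ l, (A.pol (c l)).SevenEquivalent P) ∧
      ((∀ X : V, TracesAgree c X) → (∃ l, ∀ X : V, (D l).SignConj X) →
        ∀ X : V, (∀ i : ℕ, ProjForAll c {i} X) ∧ ∀ M : A.Bund X, LambdaForAll c A M)) :=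
  final_form Z D (p_PRJ42 Z D) (p_BIN42 Z D) (p_LAM42 Z D) c h g A hP

end Family

end Pool.Std
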